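import Mathlib

/-!
# Closed swaps and colour-extension for five colours

`Step H S c c'`: the map `c'` arises from `c` by exchanging two colours on a set `A` inside `S`
which is a union of two-coloured chains of `H` restricted to `S`.
-/

namespace Pool.Agent.Helper43.Kempe

open Relation

variable {L : Type*}

/-- Exchange of two colours on a union of chains of the part of `H` inside `S`. -/
def Step (H : L → L → Prop) (S : Set L) (c c' : L → Fin 5) : Prop :=
  ∃ (α β : Fin 5) (A : Set L), A ⊆ S ∧ (∀ x ∈ A, c x = α ∨ c x = β) ∧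
    (∀ x ∈ A, ∀ y ∈ S, H x y → (c y = α ∨ c y = β) → y ∈ A) ∧
    (∀ x ∈ A, c' x = Equiv.swap α β (c x)) ∧ (∀ x, x ∉ A → c' x = c x)

/-- `c` is proper for `H` on `S`. -/
def Proper (H : L → L → Prop) (S : Set L) (c : L → Fin 5) : Prop :=
  ∀ x ∈ S, ∀ y ∈ S, H x y → c x ≠ c y

/-- There is a proper colouring on `S`, and any two are joined by steps. -/
def KC (H : L → L → Prop) (S : Set L) : Prop :=
  (∃ c, Proper H S c) ∧ ∀ c c', Proper H S c → Proper H S c' →
    ∃ c'', ReflTransGen (Step H S) c c'' ∧ ∀ x ∈ S, c'' x = c' x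

lemma Step.proper {H : L → L → Prop} (hH : ∀ x y, H x y → H y x) {S : Set L} {c c' : L → Fin 5}
    (h : Step H S c c') (hc : Proper H S c) : Proper H S c' := by
  obtain ⟨α, β, A, hAS, hA, hcl, h1, h2⟩ := h
  intro x hx y hy hxy
  by_cases hxA : x ∈ A
  · by_cases hyA : y ∈ A
    · rw [h1 x hxA, h1 y hyA]
      intro h
      exact hc x hx y hy hxy ((Equiv.swap α β).injective h)
    · rw [h1 x hxA, h2 y hyA]
      intro h
      apply hyA
      apply hcl x hxA y hy hxy
      rcases hA x hxA with h' | h'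
      · right; rw [← h, h', Equiv.swap_apply_left]
      · left; rw [← h, h', Equiv.swap_apply_right]
  · by_cases hyA : y ∈ A
    · rw [h1 y hyA, h2 x hxA]
      intro h
      apply hxA
      apply hcl y hyA x hx (hH _ _ hxy)
      rcases hA y hyA with h' | h'
      · right; rw [h, h', Equiv.swap_apply_left]
      · left; rw [h, h', Equiv.swap_apply_right]
    · rw [h2 x hxA, h2 y hyA]
      exact hc x hx y hy hxy

lemma rtg_proper {H : L → L → Prop} (hH : ∀ x y, H x y → H y x) {S : Set L} {c c' : L → Fin 5}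
    (h : ReflTransGen (Step H S) c c') (hc : Proper H S c) : Proper H S c' := by
  induction h with
  | refl => exact hc
  | tail _ h ih => exact h.proper hH ih

lemma exists_color (F : Finset L) (hF : F.card ≤ 4) (c : L → Fin 5) :
    ∃ γ : Fin 5, ∀ x ∈ F, c x ≠ γ := by
  classical
  have h : (F.image c).card < Fintype.card (Fin 5) := by
    have := Finset.card_image_le (s := F) (f := c)
    simp only [Fintype.card_fin]; omega
  obtain ⟨γ, hγ⟩ := Finset.exists_mem_notMem_of_card_lt_card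
    (s := F.image c) (t := Finset.univ) (by simpa using h)
  exact ⟨γ, fun x hx h => hγ.2 (h ▸ Finset.mem_image_of_mem c hx)⟩

lemma exists_color' (F : Finset L) (hF : F.card ≤ 4) (c : L → Fin 5) {x y : L}
    (hx : x ∈ F) (hy : y ∈ F) (hxy : x ≠ y) (hc : c x = c y) (α : Fin 5) :
    ∃ γ : Fin 5, γ ≠ α ∧ ∀ z ∈ F, c z ≠ γ := by
  classical
  have h : (insert α ((F.erase y).image c)).card < Fintype.card (Fin 5) := by
    have h1 := Finset.card_image_le (s := F.erase y) (f := c)
    have h2 := Finset.card_insert_le α ((F.erase y).image c)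
    have h3 := Finset.card_erase_of_mem hy
    have h4 := Finset.card_pos.2 ⟨y, hy⟩
    simp only [Fintype.card_fin]; omega
  obtain ⟨γ, hγ⟩ := Finset.exists_mem_notMem_of_card_lt_card
    (s := insert α ((F.erase y).image c)) (t := Finset.univ) (by simpa using h)
  have hγ2 := hγ.2
  rw [Finset.mem_insert, not_or] at hγ2
  refine ⟨γ, hγ2.1, fun z hz h => hγ2.2 ?_⟩
  by_cases hzy : z = y
  · rw [Finset.mem_image]
    exact ⟨x, Finset.mem_erase.2 ⟨hxy, hx⟩, by rw [hc, ← hzy, h]⟩
  · rw [Finset.mem_image]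
    exact ⟨z, Finset.mem_erase.2 ⟨hzy, hz⟩, h⟩

section Insert

variable {H : L → L → Prop} {S : Set L} {w : L}

lemma lift_step_of_not_mem {c c' d : L → Fin 5} {α β : Fin 5} {A : Set L}
    (hAS : A ⊆ S) (hA : ∀ x ∈ A, c x = α ∨ c x = β)
    (hcl : ∀ x ∈ A, ∀ y ∈ S, H x y → (c y = α ∨ c y = β) → y ∈ A)
    (h1 : ∀ x ∈ A, c' x = Equiv.swap α β (c x)) (h2 : ∀ x, x ∉ A → c' x = c x)
    (hcd : ∀ x ∈ S, d x = c x) (hdw : ∀ x ∈ A, H x w → ¬ (d w = α ∨ d w = β)) :
    ∃ d', Step H (insert w S) d d' ∧ ∀ x ∈ S, d' x = c' x := by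
  classical
  refine ⟨fun x => if x ∈ A then Equiv.swap α β (d x) else d x, ?_, ?_⟩
  · refine ⟨α, β, A, fun x hx => Set.mem_insert_of_mem _ (hAS hx), ?_, ?_, ?_, ?_⟩
    · intro x hx
      rw [hcd x (hAS hx)]
      exact hA x hx
    · intro x hx y hy hxy hyc
      rcases hy with rfl | hy
      · exact absurd hyc (hdw x hx hxy)
      · rw [hcd y hy] at hyc
        exact hcl x hx y hy hxy hyc
    · intro x hx; simp [hx]
    · intro x hx; simp [hx]
  · intro x hx
    by_cases hxA : x ∈ A
    · simp only [hxA, if_true]; rw [h1 x hxA, hcd x hx]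
    · simp only [hxA, if_false]; rw [h2 x hxA, hcd x hx]

lemma lift_step (hH : ∀ x y, H x y → H y x) (hw : w ∉ S) (F : Finset L) (hF : F.card ≤ 4)
    (hN : ∀ x ∈ S, H w x → x ∈ F) {c c' d : L → Fin 5} (hd : Proper H (insert w S) d)
    (hcd : ∀ x ∈ S, d x = c x) (hs : Step H S c c') :
    ∃ d', ReflTransGen (Step H (insert w S)) d d' ∧ ∀ x ∈ S, d' x = c' x := by
  classical
  obtain ⟨α, β, A, hAS, hA, hcl, h1, h2⟩ := hs
  have hwA : w ∉ A := fun h => hw (hAS h)
  by_cases hc1 : ∀ x ∈ A, H x w → ¬ (d w = α ∨ d w = β)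
  · obtain ⟨d', hd', h⟩ := lift_step_of_not_mem (w := w) hAS hA hcl h1 h2 hcd hc1
    exact ⟨d', ReflTransGen.single hd', h⟩
  push Not at hc1
  obtain ⟨x0, hx0A, hx0w, hdw⟩ := hc1
  by_cases hc2 : ∀ y ∈ S, H w y → (d y = α ∨ d y = β) → y ∈ A
  · refine ⟨fun x => if x ∈ insert w A then Equiv.swap α β (d x) else d x,
      ReflTransGen.single ⟨α, β, insert w A, Set.insert_subset_insert hAS, ?_, ?_, ?_, ?_⟩, ?_⟩
    · rintro x (rfl | hx)
      · exact hdw
      · rw [hcd x (hAS hx)]; exact hA x hx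
    · rintro x (rfl | hx) y (rfl | hy) hxy hyc
      · exact Set.mem_insert _ _
      · exact Set.mem_insert_of_mem _ (hc2 y hy hxy hyc)
      · exact Set.mem_insert _ _
      · rw [hcd y hy] at hyc
        exact Set.mem_insert_of_mem _ (hcl x hx y hy hxy hyc)
    · intro x hx; simp only [hx, if_true]
    · intro x hx; simp only [hx, if_false]
    · intro x hx
      have hxw : x ≠ w := fun h => hw (h ▸ hx)
      by_cases hxA : x ∈ A
      · have : x ∈ insert w A := Set.mem_insert_of_mem _ hxA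
        simp only [this, if_true]; rw [h1 x hxA, hcd x hx]
      · have : x ∉ insert w A := by
          rintro (h | h)
          · exact hxw h
          · exact hxA h
        simp only [this, if_false]; rw [h2 x hxA, hcd x hx]
  push Not at hc2
  obtain ⟨y0, hy0S, hwy0, hdy0, hy0A⟩ := hc2
  have hx0S := hAS hx0A
  have e1 : d x0 ≠ d w := hd x0 (Set.mem_insert_of_mem _ hx0S) w (Set.mem_insert _ _) hx0w
  have e2 : d w ≠ d y0 := hd w (Set.mem_insert _ _) y0 (Set.mem_insert_of_mem _ hy0S) hwy0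
  have e3 : d x0 = α ∨ d x0 = β := by rw [hcd x0 hx0S]; exact hA x0 hx0A
  have e4 : d x0 = d y0 := by
    rcases hdw with h | h <;> rcases hdy0 with h' | h' <;> rcases e3 with h'' | h'' <;>
      simp_all
  have hxy0 : x0 ≠ y0 := fun h => hy0A (h ▸ hx0A)
  have hx0F : x0 ∈ F := hN x0 hx0S (hH _ _ hx0w)
  have hy0F : y0 ∈ F := hN y0 hy0S hwy0
  obtain ⟨γ, hγ1, hγ2⟩ := exists_color' F hF d hx0F hy0F hxy0 e4 (d w)
  have hγx : d x0 ≠ γ := hγ2 x0 hx0F
  -- first recolour w with γ
  have s1 : Step H (insert w S) d (Function.update d w γ) := by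
    refine ⟨d w, γ, {w}, ?_, ?_, ?_, ?_, ?_⟩
    · intro x hx; rw [Set.mem_singleton_iff] at hx; rw [hx]; exact Set.mem_insert _ _
    · intro x hx; rw [Set.mem_singleton_iff] at hx; rw [hx]; left; rfl
    · intro x hx y hy hxy hyc
      rw [Set.mem_singleton_iff] at hx
      subst hx
      rcases hy with rfl | hy
      · rfl
      · exfalso
        rcases hyc with h | h
        · exact hd x (Set.mem_insert _ _) y (Set.mem_insert_of_mem _ hy) hxy h.symm
        · exact hγ2 y (hN y hy hxy) h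
    · intro x hx; rw [Set.mem_singleton_iff] at hx; rw [hx]; simp
    · intro x hx; rw [Set.mem_singleton_iff] at hx; simp [hx]
  have hcd' : ∀ x ∈ S, Function.update d w γ x = c x := by
    intro x hx
    have hxw : x ≠ w := fun h => hw (h ▸ hx)
    rw [Function.update_of_ne hxw, hcd x hx]
  have hdw' : ∀ x ∈ A, H x w → ¬ (Function.update d w γ w = α ∨ Function.update d w γ w = β) := by
    intro x hx hxw
    rw [Function.update_self]
    have hne : ∀ δ : Fin 5, (δ = d w ∨ δ = d x0) → γ ≠ δ := by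
      rintro δ (rfl | rfl)
      · exact hγ1
      · exact fun h => hγx h.symm
    have hset : ∀ δ : Fin 5, (δ = α ∨ δ = β) → (δ = d w ∨ δ = d x0) := by
      rintro δ (rfl | rfl) <;> rcases hdw with h | h <;> rcases e3 with h' | h' <;>
        first
        | exact Or.inl h.symm
        | exact Or.inr h'.symm
        | exact absurd (h'.trans h.symm) e1
    intro hγ
    exact hne γ (hset γ hγ) rfl
  obtain ⟨d', hd', h⟩ := lift_step_of_not_mem (w := w) hAS hA hcl h1 h2 hcd' hdw'
  exact ⟨d', (ReflTransGen.single s1).tail hd', h⟩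

lemma lift_path (hH : ∀ x y, H x y → H y x) (hw : w ∉ S) (F : Finset L) (hF : F.card ≤ 4)
    (hN : ∀ x ∈ S, H w x → x ∈ F) {c c' d : L → Fin 5} (hd : Proper H (insert w S) d)
    (hcd : ∀ x ∈ S, d x = c x) (hs : ReflTransGen (Step H S) c c') :
    ∃ d', ReflTransGen (Step H (insert w S)) d d' ∧ ∀ x ∈ S, d' x = c' x := by
  induction hs with
  | refl => exact ⟨d, ReflTransGen.refl, hcd⟩
  | tail _ h ih =>
    obtain ⟨d1, hd1, h1⟩ := ih
    obtain ⟨d2, hd2, h2⟩ := lift_step hH hw F hF hN (rtg_proper hH hd1 hd) h1 h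
    exact ⟨d2, hd1.trans hd2, h2⟩

/-- Adding a vertex with at most four neighbours keeps `KC`. -/
theorem KC.insert (hH : ∀ x y, H x y → H y x) (hww : ¬ H w w) (F : Finset L)
    (hF : F.card ≤ 4) (hN : ∀ x ∈ S, H w x → x ∈ F) (h : KC H S) : KC H (insert w S) := by
  classical
  by_cases hw : w ∈ S
  · rwa [Set.insert_eq_of_mem hw]
  obtain ⟨⟨c0, hc0⟩, h⟩ := h
  refine ⟨?_, ?_⟩
  · obtain ⟨γ, hγ⟩ := exists_color F hF c0
    refine ⟨Function.update c0 w γ, ?_⟩
    rintro x (rfl | hx) y (rfl | hy) hxy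
    · exact absurd hxy hww
    · have hyw : y ≠ x := fun h => hw (h ▸ hy)
      rw [Function.update_self, Function.update_of_ne hyw]
      exact (hγ y (hN y hy hxy)).symm
    · have hxw : x ≠ y := fun h => hw (h ▸ hx)
      rw [Function.update_self, Function.update_of_ne hxw]
      exact hγ x (hN x hx (hH _ _ hxy))
    · have hxw : x ≠ w := fun h => hw (h ▸ hx)
      have hyw : y ≠ w := fun h => hw (h ▸ hy)
      rw [Function.update_of_ne hxw, Function.update_of_ne hyw]
      exact hc0 x hx y hy hxy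
  · intro c c' hc hc'
    have hcS : Proper H S c := fun x hx y hy =>
      hc x (Set.mem_insert_of_mem _ hx) y (Set.mem_insert_of_mem _ hy)
    have hcS' : Proper H S c' := fun x hx y hy =>
      hc' x (Set.mem_insert_of_mem _ hx) y (Set.mem_insert_of_mem _ hy)
    obtain ⟨c1, hc1, h1⟩ := h c c' hcS hcS'
    obtain ⟨d, hd, h2⟩ := lift_path hH hw F hF hN hc (fun _ _ => rfl) hc1
    have hdP := rtg_proper hH hd hc
    have h3 : ∀ x ∈ S, d x = c' x := fun x hx => (h2 x hx).trans (h1 x hx)
    refine ⟨Function.update d w (c' w), hd.tail ?_, ?_⟩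
    · refine ⟨d w, c' w, {w}, ?_, ?_, ?_, ?_, ?_⟩
      · intro x hx; rw [Set.mem_singleton_iff] at hx; rw [hx]; exact Set.mem_insert _ _
      · intro x hx; rw [Set.mem_singleton_iff] at hx; rw [hx]; left; rfl
      · intro x hx y hy hxy hyc
        rw [Set.mem_singleton_iff] at hx
        subst hx
        rcases hy with rfl | hy
        · rfl
        · exfalso
          rcases hyc with h | h
          · exact hdP x (Set.mem_insert _ _) y (Set.mem_insert_of_mem _ hy) hxy h.symm
          · rw [h3 y hy] at h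
            exact hc' x (Set.mem_insert _ _) y (Set.mem_insert_of_mem _ hy) hxy h.symm
      · intro x hx; rw [Set.mem_singleton_iff] at hx; rw [hx]; simp
      · intro x hx; rw [Set.mem_singleton_iff] at hx; simp [hx]
    · rintro x (rfl | hx)
      · simp
      · have hxw : x ≠ w := fun h => hw (h ▸ hx)
        rw [Function.update_of_ne hxw]
        exact h3 x hx

end Insert

lemma KC.empty (H : L → L → Prop) : KC H ∅ := by
  refine ⟨⟨fun _ => 0, ?_⟩, ?_⟩
  · intro x hx; exact absurd hx (Set.notMem_empty x)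
  · intro c c' _ _
    exact ⟨c, ReflTransGen.refl, fun x hx => absurd hx (Set.notMem_empty x)⟩

section Quotient

variable {V : Type*} (G : V → V → Prop) (f : V → L)

/-- The relation induced on labels. -/
def Quo : L → L → Prop := fun l x => ∃ u v, G u v ∧ f u = l ∧ f v = x

lemma Quo.symm (hG : ∀ u v, G u v → G v u) : ∀ x y, Quo G f x y → Quo G f y x := by
  rintro x y ⟨u, v, h, hu, hv⟩
  exact ⟨v, u, hG _ _ h, hv, hu⟩

lemma Step.comp {G : V → V → Prop} {f : V → L} {S : Set L} (hS : ∀ v, f v ∈ S)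
    {c c' : L → Fin 5} (h : Step (Quo G f) S c c') :
    Step G Set.univ (c ∘ f) (c' ∘ f) := by
  obtain ⟨α, β, A, hAS, hA, hcl, h1, h2⟩ := h
  refine ⟨α, β, f ⁻¹' A, fun _ _ => Set.mem_univ _, fun x hx => hA _ hx, ?_,
    fun x hx => h1 _ hx, fun x hx => h2 _ hx⟩
  intro x hx y _ hxy hyc
  exact hcl (f x) hx (f y) (hS y) ⟨x, y, hxy, rfl, rfl⟩ hyc

/-- If the quotient has `KC` then all colourings factoring through `f` are joined by steps. -/
theorem KC.joined {G : V → V → Prop} {f : V → L} {S : Set L} (hS : ∀ v, f v ∈ S)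
    (h : KC (Quo G f) S) {c c' : L → Fin 5} (hc : Proper G Set.univ (c ∘ f))
    (hc' : Proper G Set.univ (c' ∘ f)) :
    ReflTransGen (Step G Set.univ) (c ∘ f) (c' ∘ f) := by
  have p1 : Proper (Quo G f) S c := by
    rintro x hx y hy ⟨u, v, huv, rfl, rfl⟩
    exact hc u (Set.mem_univ _) v (Set.mem_univ _) huv
  have p2 : Proper (Quo G f) S c' := by
    rintro x hx y hy ⟨u, v, huv, rfl, rfl⟩
    exact hc' u (Set.mem_univ _) v (Set.mem_univ _) huv
  obtain ⟨c'', h1, h2⟩ := h.2 c c' p1 p2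
  have h3 : ReflTransGen (Step G Set.univ) (c ∘ f) (c'' ∘ f) := by
    clear h2
    induction h1 with
    | refl => exact ReflTransGen.refl
    | tail _ h ih => exact ih.tail (h.comp hS)
  have h4 : c'' ∘ f = c' ∘ f := by
    funext v
    exact h2 (f v) (hS v)
  rwa [h4] at h3

theorem KC.exists_col {G : V → V → Prop} {f : V → L} {S : Set L} (hS : ∀ v, f v ∈ S)
    (h : KC (Quo G f) S) : ∃ c : L → Fin 5, Proper G Set.univ (c ∘ f) := by
  obtain ⟨c, hc⟩ := h.1
  refine ⟨c, ?_⟩
  intro u _ v _ huv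
  exact hc (f u) (hS u) (f v) (hS v) ⟨u, v, huv, rfl, rfl⟩

end Quotient

end Pool.Agent.Helper43.Kempe
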