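import Pool.Agent.Helper43.Kempe.Basic

/-!
# Checkable certificates

All vertex sets are coded by natural numbers (bit masks).
-/

namespace Pool.Agent.Helper43.Kempe

open Relation

/-- test of a bit -/
def bt (m x : ℕ) : Bool := Nat.beq (Nat.land (Nat.shiftRight m x) 1) 1

/-- set a bit -/
def setb (m x : ℕ) : ℕ := Nat.lor m (Nat.shiftLeft 1 x)

lemma bt_eq (m x : ℕ) : bt m x = m.testBit x := by
  unfold bt Nat.testBit
  change ((m >>> x) &&& 1).beq 1 = (1 &&& (m >>> x) != 0)
  rw [Nat.land_comm]
  have h : (1 &&& m >>> x) = 0 ∨ (1 &&& m >>> x) = 1 := by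
    rw [Nat.land_comm, Nat.and_one_is_mod]; omega
  rcases h with h | h <;> rw [h] <;> rfl

lemma testBit_setb (m x y : ℕ) : (setb m x).testBit y = (m.testBit y || decide (x = y)) := by
  unfold setb
  change (m ||| 1 <<< x).testBit y = _
  rw [Nat.testBit_or, Nat.shiftLeft_eq, one_mul, Nat.testBit_two_pow]

/-- at most `k` bits are set -/
def pc : ℕ → ℕ → Bool
  | 0, m => Nat.beq m 0
  | k + 1, m => or (Nat.beq m 0) (pc k (Nat.xor m (Nat.shiftLeft 1 (Nat.log2 m))))

lemma pc_sound : ∀ (k m : ℕ), pc k m = true →
    ∃ F : Finset ℕ, F.card ≤ k ∧ ∀ x, m.testBit x = true → x ∈ F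
  | 0, m, h => by
    have : m = 0 := Nat.eq_of_beq_eq_true h
    subst this
    exact ⟨∅, by simp, by simp⟩
  | k + 1, m, h => by
    simp only [pc, Bool.or_eq_true] at h
    rcases h with h | h
    · have : m = 0 := Nat.eq_of_beq_eq_true h
      subst this
      exact ⟨∅, by simp, by simp⟩
    · obtain ⟨F, hF, hx⟩ := pc_sound k _ h
      refine ⟨insert (Nat.log2 m) F, (Finset.card_insert_le _ _).trans (by omega), ?_⟩
      intro x hmx
      by_cases hxl : x = Nat.log2 m
      · rw [hxl]; exact Finset.mem_insert_self _ _
      · apply Finset.mem_insert_of_mem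
        apply hx
        change (m ^^^ 1 <<< Nat.log2 m).testBit x = true
        rw [Nat.testBit_xor, Nat.shiftLeft_eq, one_mul, Nat.testBit_two_pow, hmx]
        simp [Ne.symm hxl]

/-- adjacency mask of `l`, read off the packed table `A` -/
def adj (A l : ℕ) : ℕ := Nat.land (Nat.shiftRight A (Nat.mul 64 l)) 0xffffffffffffffff

/-- relabelling of the merged vertices -/
def rep : List (ℕ × ℕ) → ℕ → ℕ
  | [], x => x
  | q :: ps, x => cond (Nat.beq x q.1) q.2 (rep ps x)

/-- mask of the merged vertices -/
def mg : List (ℕ × ℕ) → ℕ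
  | [] => 0
  | q :: ps => setb (mg ps) q.1

def relabel : List (ℕ × ℕ) → ℕ → ℕ
  | [], m => m
  | q :: ps, m => relabel ps (cond (bt m q.1) (setb m q.2) m)

def joinm (A : ℕ) : List (ℕ × ℕ) → ℕ → ℕ → ℕ
  | [], _, m => m
  | q :: ps, l, m => joinm A ps l (cond (Nat.beq q.2 l) (Nat.lor m (adj A q.1)) m)

lemma rep_cases : ∀ (ps : List (ℕ × ℕ)) (u : ℕ), u = rep ps u ∨ (u, rep ps u) ∈ ps
  | [], u => Or.inl rfl
  | q :: ps, u => by
    by_cases h : u = q.1
    · right
      have : rep (q :: ps) u = q.2 := by simp [rep, h]
      rw [this, h]; simp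
    · have h' : rep (q :: ps) u = rep ps u := by
        have : Nat.beq u q.1 = false := by
          rw [Bool.eq_false_iff]; intro hh; exact h (Nat.eq_of_beq_eq_true hh)
        simp [rep, this]
      rw [h']
      rcases rep_cases ps u with h1 | h1
      · left; exact h1
      · right; exact List.mem_cons_of_mem _ h1

lemma mg_testBit : ∀ (ps : List (ℕ × ℕ)) (q : ℕ × ℕ), q ∈ ps → (mg ps).testBit q.1 = true
  | [], q, h => absurd h (by simp)
  | q' :: ps, q, h => by
    simp only [mg, testBit_setb, Bool.or_eq_true, decide_eq_true_eq]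
    rcases List.mem_cons.1 h with rfl | h
    · right; rfl
    · left; exact mg_testBit ps q h

lemma rep_eq_self {ps : List (ℕ × ℕ)} {u : ℕ} (h : (mg ps).testBit u = false) :
    rep ps u = u := by
  rcases rep_cases ps u with h1 | h1
  · exact h1.symm
  · have := mg_testBit ps _ h1
    simp only at this
    rw [this] at h
    exact absurd h (by simp)

lemma relabel_mono : ∀ (ps : List (ℕ × ℕ)) (m y : ℕ), m.testBit y = true →
    (relabel ps m).testBit y = true
  | [], m, y, h => h
  | q :: ps, m, y, h => by
    unfold relabel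
    apply relabel_mono
    cases bt m q.1
    · exact h
    · simp only [cond_true]; rw [testBit_setb, h]; rfl

lemma relabel_sound : ∀ (ps : List (ℕ × ℕ)) (m y : ℕ), m.testBit y = true →
    (relabel ps m).testBit (rep ps y) = true
  | [], m, y, h => h
  | q :: ps, m, y, h => by
    unfold relabel
    by_cases hy : y = q.1
    · have h1 : rep (q :: ps) y = q.2 := by simp [rep, hy]
      have h2 : bt m q.1 = true := by rw [bt_eq, ← hy, h]
      rw [h1, h2]
      apply relabel_mono
      simp only [cond_true]; rw [testBit_setb]; simp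
    · have h1 : rep (q :: ps) y = rep ps y := by
        have : Nat.beq y q.1 = false := by
          rw [Bool.eq_false_iff]; intro hh; exact hy (Nat.eq_of_beq_eq_true hh)
        simp [rep, this]
      rw [h1]
      apply relabel_sound
      cases bt m q.1
      · exact h
      · simp only [cond_true]; rw [testBit_setb, h]; rfl

lemma joinm_mono (A : ℕ) : ∀ (ps : List (ℕ × ℕ)) (l m y : ℕ), m.testBit y = true →
    (joinm A ps l m).testBit y = true
  | [], l, m, y, h => h
  | q :: ps, l, m, y, h => by
    unfold joinm
    apply joinm_mono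
    cases Nat.beq q.2 l
    · exact h
    · simp only [cond_true]
      change (m ||| adj A q.1).testBit y = true
      rw [Nat.testBit_or, h]; rfl

lemma joinm_mem (A : ℕ) : ∀ (ps : List (ℕ × ℕ)) (u l m y : ℕ), (u, l) ∈ ps →
    (adj A u).testBit y = true → (joinm A ps l m).testBit y = true
  | [], u, l, m, y, h, _ => absurd h (by simp)
  | q :: ps, u, l, m, y, h, hy => by
    unfold joinm
    rcases List.mem_cons.1 h with h | h
    · subst h
      apply joinm_mono
      simp only [Nat.beq_refl, cond_true]
      change (m ||| adj A u).testBit y = true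
      rw [Nat.testBit_or, hy]; simp
    · exact joinm_mem A ps u l _ y h hy

def okc3 (R k l m : ℕ) : Bool := and (not (bt m l)) (pc k (Nat.xor (Nat.lor m R) R))

def okc2 (ps : List (ℕ × ℕ)) (MG R k l m : ℕ) : Bool :=
  okc3 R k l (cond (Nat.beq (Nat.land m MG) 0) m (relabel ps m))

/-- the class `l` has at most `k` neighbour classes outside `R` -/
def okc (A : ℕ) (ps : List (ℕ × ℕ)) (MG R k l : ℕ) : Bool :=
  okc2 ps MG R k l (joinm A ps l (adj A l))

/-- neighbour classes in the local graph -/
def NB (A : ℕ) (ps : List (ℕ × ℕ)) (l x : ℕ) : Prop :=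
  ∃ u y, rep ps u = l ∧ (adj A u).testBit y = true ∧ rep ps y = x

lemma okc_sound {A : ℕ} {ps : List (ℕ × ℕ)} {R k l : ℕ}
    (h : okc A ps (mg ps) R k l = true) :
    ¬ NB A ps l l ∧ ∃ F : Finset ℕ, F.card ≤ k ∧ ∀ x, NB A ps l x → R.testBit x = false → x ∈ F := by
  unfold okc okc2 okc3 at h
  set m1 := joinm A ps l (adj A l) with hm1
  set m2 := cond (Nat.beq (Nat.land m1 (mg ps)) 0) m1 (relabel ps m1) with hm2
  have key : ∀ x, NB A ps l x → m2.testBit x = true := by
    rintro x ⟨u, y, hu, hy, rfl⟩
    have h1 : m1.testBit y = true := by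
      rcases rep_cases ps u with h' | h'
      · rw [hu] at h'
        rw [h'] at hy
        exact joinm_mono A ps l _ y hy
      · rw [hu] at h'
        exact joinm_mem A ps u l _ y h' hy
    by_cases hb : Nat.beq (Nat.land m1 (mg ps)) 0 = true
    · have h0 : m1 &&& mg ps = 0 := Nat.eq_of_beq_eq_true hb
      have h2 : (mg ps).testBit y = false := by
        by_contra hne
        have h3 : (m1 &&& mg ps).testBit y = true := by
          rw [Nat.testBit_and, h1]; simpa using hne
        rw [h0] at h3; simp at h3
      rw [hm2, hb, rep_eq_self h2]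
      exact h1
    · have hb' : Nat.beq (Nat.land m1 (mg ps)) 0 = false := Bool.eq_false_iff.2 hb
      rw [hm2, hb']
      exact relabel_sound ps m1 y h1
  rw [Bool.and_eq_true] at h
  obtain ⟨h1, h2⟩ := h
  refine ⟨?_, ?_⟩
  · intro hl
    have := key l hl
    rw [bt_eq, this] at h1
    exact absurd h1 (by simp)
  · obtain ⟨F, hF, hFx⟩ := pc_sound k _ h2
    refine ⟨F, hF, fun x hx hR => hFx x ?_⟩
    change ((m2 ||| R) ^^^ R).testBit x = true
    rw [Nat.testBit_xor, Nat.testBit_or, key x hx, hR]; rfl

/-- elimination inside the local graph only -/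
def elim2 (A FULL : ℕ) (ps : List (ℕ × ℕ)) (MG : ℕ) : ℕ → ℕ → ℕ → Bool
  | 0, _, R => Nat.beq R FULL
  | n + 1, O, R => or (Nat.beq R FULL)
      (and (okc A ps MG R 4 (Nat.mod O 64))
        (elim2 A FULL ps MG n (Nat.div O 64) (setb R (Nat.mod O 64))))

/-- the remaining classes -/
def SS (N R : ℕ) : Set ℕ := {x | x < N ∧ R.testBit x = false}

lemma SS_full (N : ℕ) : SS N (2 ^ N - 1) = ∅ := by
  ext x
  simp only [SS, Set.mem_ofPred_eq, Set.mem_empty_iff_false, iff_false, not_and]
  intro hx
  rw [Nat.testBit_two_pow_sub_one]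
  simp [hx]

lemma SS_setb {N R l : ℕ} (hl : l < N) (hR : R.testBit l = false) :
    SS N R = insert l (SS N (setb R l)) := by
  ext x
  simp only [SS, Set.mem_ofPred_eq, Set.mem_insert_iff, testBit_setb, Bool.or_eq_false_iff,
    decide_eq_false_iff_not]
  constructor
  · rintro ⟨h1, h2⟩
    by_cases h : x = l
    · left; exact h
    · right; exact ⟨h1, h2, fun h' => h h'.symm⟩
  · rintro (rfl | ⟨h1, h2, _⟩)
    · exact ⟨hl, hR⟩
    · exact ⟨h1, h2⟩

lemma SS_setb' {N R l : ℕ} (hl : ¬ (l < N ∧ R.testBit l = false)) :
    SS N R = SS N (setb R l) := by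
  ext x
  simp only [SS, Set.mem_ofPred_eq, testBit_setb, Bool.or_eq_false_iff,
    decide_eq_false_iff_not]
  constructor
  · rintro ⟨h1, h2⟩
    exact ⟨h1, h2, fun h => hl (h ▸ ⟨h1, h2⟩)⟩
  · rintro ⟨h1, h2, _⟩
    exact ⟨h1, h2⟩

theorem elim2_sound {H : ℕ → ℕ → Prop} (hH : ∀ x y, H x y → H y x) {A N : ℕ}
    {ps : List (ℕ × ℕ)} {R0 : ℕ}
    (hnb : ∀ l x, l < N → x < N → R0.testBit l = false → R0.testBit x = false → H l x →
      NB A ps l x) :
    ∀ (n O R : ℕ), (∀ x, R0.testBit x = true → R.testBit x = true) →
      elim2 A (2 ^ N - 1) ps (mg ps) n O R = true → KC H (SS N R)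
  | 0, O, R, hR, h => by
    have : R = 2 ^ N - 1 := Nat.eq_of_beq_eq_true h
    rw [this, SS_full]
    exact KC.empty H
  | n + 1, O, R, hR, h => by
    simp only [elim2, Bool.or_eq_true, Bool.and_eq_true] at h
    rcases h with h | ⟨h1, h2⟩
    · have : R = 2 ^ N - 1 := Nat.eq_of_beq_eq_true h
      rw [this, SS_full]
      exact KC.empty H
    · have ih := elim2_sound hH hnb n _ _ (fun x hx => by
        rw [testBit_setb, hR x hx]; rfl) h2
      set l := Nat.mod O 64 with hl
      by_cases hc : l < N ∧ R.testBit l = false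
      · rw [SS_setb hc.1 hc.2]
        obtain ⟨h3, F, hF, h4⟩ := okc_sound h1
        have hl0 : R0.testBit l = false := by
          by_contra hne
          have := hR l (by simpa using hne)
          rw [hc.2] at this
          exact absurd this (by simp)
        refine KC.insert hH ?_ F hF ?_ ih
        · intro hll
          exact h3 (hnb l l hc.1 hc.1 hl0 hl0 hll)
        · intro x hx hlx
          have hx2 : R.testBit x = false := by
            have := hx.2
            rw [testBit_setb, Bool.or_eq_false_iff] at this
            exact this.1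
          have hx0 : R0.testBit x = false := by
            by_contra hne
            have := hR x (by simpa using hne)
            rw [hx2] at this
            exact absurd this (by simp)
          exact h4 x (hnb l x hc.1 hx.1 hl0 hx0 hlx) hx2
      · rw [SS_setb' hc]
        exact ih

/-- elimination in a strip: the first `a` and the last `a` local vertices have two more
neighbours outside -/
def elim1 (A FULL : ℕ) (ps : List (ℕ × ℕ)) (MG a N1 LAST : ℕ) : ℕ → ℕ → ℕ → Bool
  | 0, _, _ => false
  | n + 1, O, R => cond (Nat.beq (Nat.mod O 64) 63)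
      (and (Nat.beq (Nat.land R LAST) LAST) (elim2 A FULL ps MG n (Nat.div O 64) R))
      (and (okc A ps MG R (cond (or (Nat.blt (Nat.mod O 64) a) (Nat.ble N1 (Nat.mod O 64))) 2 4)
          (Nat.mod O 64))
        (elim1 A FULL ps MG a N1 LAST n (Nat.div O 64) (setb R (Nat.mod O 64))))

theorem elim1_sound {H : ℕ → ℕ → Prop} (hH : ∀ x y, H x y → H y x) {A N : ℕ}
    {ps : List (ℕ × ℕ)} {a N1 LAST : ℕ} {R0 : ℕ} {T : Set ℕ} (hT : ∀ x ∈ T, N ≤ x)
    (hsw : ∀ R, (∀ x, R0.testBit x = true → R.testBit x = true) →
      (∀ x, LAST.testBit x = true → R.testBit x = true) → KC H (SS N R) → KC H (SS N R ∪ T))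
    (hnb1 : ∀ l, l < N → R0.testBit l = false → ∃ F : Finset ℕ,
      F.card ≤ (if l < a ∨ N1 ≤ l then 2 else 0) ∧
      (∀ x ∈ T, H l x → x ∈ F) ∧
      ∀ x, x < N → R0.testBit x = false → H l x → NB A ps l x ∨ (x ∈ F ∧ x ≠ l))
    (hnb2 : ∀ l x, l < N → x < N → R0.testBit l = false → R0.testBit x = false →
      LAST.testBit l = false → LAST.testBit x = false → H l x → NB A ps l x) :
    ∀ (n O R : ℕ), (∀ x, R0.testBit x = true → R.testBit x = true) →
      elim1 A (2 ^ N - 1) ps (mg ps) a N1 LAST n O R = true → KC H (SS N R ∪ T)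
  | 0, O, R, hR, h => by simp [elim1] at h
  | n + 1, O, R, hR, h => by
    unfold elim1 at h
    by_cases hO : Nat.beq (Nat.mod O 64) 63 = true
    · rw [hO] at h
      simp only [cond_true, Bool.and_eq_true] at h
      obtain ⟨h1, h2⟩ := h
      have h1' : R &&& LAST = LAST := Nat.eq_of_beq_eq_true h1
      have hL : ∀ x, LAST.testBit x = true → R.testBit x = true := by
        intro x hx
        rw [← h1', Nat.testBit_and, Bool.and_eq_true] at hx
        exact hx.1
      apply hsw R hR hL
      have hRR : ∀ x, (R0 ||| LAST).testBit x = true → R.testBit x = true := by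
        intro x hx
        rw [Nat.testBit_or, Bool.or_eq_true] at hx
        rcases hx with hx | hx
        · exact hR x hx
        · exact hL x hx
      refine elim2_sound hH (R0 := R0 ||| LAST) ?_ n _ R hRR h2
      intro l x hl hx hl0 hx0 hlx
      rw [Nat.testBit_or, Bool.or_eq_false_iff] at hl0 hx0
      exact hnb2 l x hl hx hl0.1 hx0.1 hl0.2 hx0.2 hlx
    · have hO' : Nat.beq (Nat.mod O 64) 63 = false := Bool.eq_false_iff.2 hO
      rw [hO'] at h
      simp only [cond_false, Bool.and_eq_true] at h
      obtain ⟨h1, h2⟩ := h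
      have ih := elim1_sound hH hT hsw hnb1 hnb2 n _ _ (fun x hx => by
        rw [testBit_setb, hR x hx]; rfl) h2
      set l := Nat.mod O 64 with hl
      by_cases hc : l < N ∧ R.testBit l = false
      · rw [SS_setb hc.1 hc.2, Set.insert_union]
        obtain ⟨h3, F, hF, h4⟩ := okc_sound h1
        have hl0 : R0.testBit l = false := by
          by_contra hne
          have := hR l (by simpa using hne)
          rw [hc.2] at this
          exact absurd this (by simp)
        obtain ⟨F', hF', h6, h5⟩ := hnb1 l hc.1 hl0
        have hcard : (F ∪ F').card ≤ 4 := by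
          refine (Finset.card_union_le _ _).trans ?_
          by_cases hla : l < a ∨ N1 ≤ l
          · have e : (or (Nat.blt l a) (Nat.ble N1 l)) = true := by
              rw [Bool.or_eq_true]
              rcases hla with h | h
              · left; exact Nat.ble_eq ▸ h
              · right; exact Nat.ble_eq ▸ h
            rw [e] at hF
            rw [if_pos hla] at hF'
            simp only [cond_true] at hF
            omega
          · have e : (or (Nat.blt l a) (Nat.ble N1 l)) = false := by
              rw [Bool.or_eq_false_iff]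
              rw [not_or] at hla
              refine ⟨?_, ?_⟩
              · rw [Bool.eq_false_iff]; intro h; exact hla.1 (Nat.le_of_ble_eq_true h)
              · rw [Bool.eq_false_iff]; intro h; exact hla.2 (Nat.le_of_ble_eq_true h)
            rw [e] at hF
            rw [if_neg hla] at hF'
            simp only [cond_false] at hF
            omega
        refine KC.insert hH ?_ (F ∪ F') hcard ?_ ih
        · intro hll
          rcases h5 l hc.1 hl0 hll with h | h
          · exact h3 h
          · exact h.2 rfl
        · intro x hx hlx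
          rcases hx with hx | hx
          · have hx2 : R.testBit x = false := by
              have := hx.2
              rw [testBit_setb, Bool.or_eq_false_iff] at this
              exact this.1
            have hx0 : R0.testBit x = false := by
              by_contra hne
              have := hR x (by simpa using hne)
              rw [hx2] at this
              exact absurd this (by simp)
            rcases h5 x hx.1 hx0 hlx with h | h
            · exact Finset.mem_union_left _ (h4 x h hx2)
            · exact Finset.mem_union_right _ h.1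
          · exact Finset.mem_union_right _ (h6 x hx hlx)
      · rw [SS_setb' hc]
        exact ih

end Pool.Agent.Helper43.Kempe
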