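import Mathlib

/-!
# Triangulated toroidal grids and Kempe equivalence
-/

namespace Pool.Agent.Helper43.Kempe

/-- The triangulated toroidal grid: vertices `ZMod a × ZMod b`, and `u`, `v` are adjacent when
they are distinct and `v - u` is one of `±(1,0)`, `±(0,1)`, `±(1,1)`. -/
def TriGrid (a b : ℕ) : SimpleGraph (ZMod a × ZMod b) where
  Adj u v := u ≠ v ∧ (v - u = (1, 0) ∨ v - u = (-1, 0) ∨ v - u = (0, 1) ∨ v - u = (0, -1) ∨
    v - u = (1, 1) ∨ v - u = (-1, -1))
  symm := by
    constructor
    rintro u v ⟨h, h'⟩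
    refine ⟨h.symm, ?_⟩
    have e : u - v = -(v - u) := (neg_sub v u).symm
    rcases h' with h' | h' | h' | h' | h' | h' <;> rw [e, h'] <;> simp
  loopless := ⟨fun u h => h.1 rfl⟩

/-- `ψ` arises from `φ` by a Kempe swap: there are distinct colours `α`, `β` and a Kempe chain `K`
(a connected component of the subgraph induced by the vertices coloured `α` or `β`) such that
`ψ` exchanges `α` and `β` on `K` and agrees with `φ` elsewhere. -/
def IsKempeSwap {V : Type} {G : SimpleGraph V} {k : ℕ} (φ ψ : G.Coloring (Fin k)) : Prop :=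
  ∃ α β : Fin k, α ≠ β ∧
    ∃ K : (G.induce {v | φ v = α ∨ φ v = β}).ConnectedComponent,
      (∀ v ∈ Subtype.val '' K.supp, ψ v = Equiv.swap α β (φ v)) ∧
      ∀ v, v ∉ Subtype.val '' K.supp → ψ v = φ v

/-- Kempe equivalence: `ψ` is obtained from `φ` by a finite sequence of Kempe swaps. -/
def KempeEquivalent {V : Type} {G : SimpleGraph V} {k : ℕ} (φ ψ : G.Coloring (Fin k)) : Prop :=
  Relation.ReflTransGen IsKempeSwap φ ψ

end Pool.Agent.Helper43.Kempe
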