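import Pool.Agent.Helper43.Kempe.Geo

/-!
# From closed swaps to Kempe swaps, and the symmetry of the grid
-/

namespace Pool.Agent.Helper43.Kempe

open Relation

/-- A proper function as a colouring. -/
def mkc {V : Type} {G : SimpleGraph V} (φ : V → Fin 5) (h : Proper G.Adj Set.univ φ) :
    G.Coloring (Fin 5) :=
  SimpleGraph.Coloring.mk φ (fun {u v} huv => h u (Set.mem_univ _) v (Set.mem_univ _) huv)

lemma col_proper {V : Type} {G : SimpleGraph V} (φ : G.Coloring (Fin 5)) :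
    Proper G.Adj Set.univ φ := fun _ _ _ _ h => φ.valid h

section Chains

variable {V : Type} {G : SimpleGraph V}

lemma mem_chain_of_adj {φ : V → Fin 5} {α β : Fin 5}
    (K : (G.induce {v | φ v = α ∨ φ v = β}).ConnectedComponent) {x y : V} (hxy : G.Adj x y)
    (hy : φ y = α ∨ φ y = β) (hx : x ∈ Subtype.val '' K.supp) : y ∈ Subtype.val '' K.supp := by
  obtain ⟨x', hx', rfl⟩ := hx
  refine ⟨⟨y, hy⟩, ?_, rfl⟩
  rw [SimpleGraph.ConnectedComponent.mem_supp_iff] at hx' ⊢
  rw [← hx']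
  apply SimpleGraph.ConnectedComponent.sound
  apply SimpleGraph.Adj.reachable
  exact hxy.symm

lemma chain_subset {φ : V → Fin 5} {α β : Fin 5} {A : Set V}
    (hcl : ∀ x ∈ A, ∀ y, G.Adj x y → (φ y = α ∨ φ y = β) → y ∈ A)
    {v : {v | φ v = α ∨ φ v = β}} (hv : v.1 ∈ A) :
    Subtype.val '' ((G.induce {v | φ v = α ∨ φ v = β}).connectedComponentMk v).supp ⊆ A := by
  rintro _ ⟨w, hw, rfl⟩
  rw [SimpleGraph.ConnectedComponent.mem_supp_iff] at hw
  have hr : (G.induce {v | φ v = α ∨ φ v = β}).Reachable v w :=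
    (SimpleGraph.ConnectedComponent.exact hw).symm
  obtain ⟨p⟩ := hr
  clear hw
  induction p with
  | nil => exact hv
  | @cons a b c h _ ih => exact ih (hcl a.1 hv b.1 h b.2)

theorem kempe_of_closed [Finite V] {α β : Fin 5} (hαβ : α ≠ β) : ∀ (n : ℕ) (A : Set V),
    A.ncard = n → ∀ φ ψ : G.Coloring (Fin 5), (∀ x ∈ A, φ x = α ∨ φ x = β) →
    (∀ x ∈ A, ∀ y, G.Adj x y → (φ y = α ∨ φ y = β) → y ∈ A) →
    (∀ x ∈ A, ψ x = Equiv.swap α β (φ x)) → (∀ x, x ∉ A → ψ x = φ x) →
    KempeEquivalent φ ψ := by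
  classical
  intro n
  induction n using Nat.strong_induction_on with
  | _ n ih =>
  intro A hn φ ψ hA hcl h1 h2
  by_cases hne : A = ∅
  · have : φ = ψ := by
      ext v
      rw [h2 v (by rw [hne]; simp)]
    rw [this]
    exact ReflTransGen.refl
  obtain ⟨v, hv⟩ := Set.nonempty_iff_ne_empty.2 hne
  let K := (G.induce {v | φ v = α ∨ φ v = β}).connectedComponentMk ⟨v, hA v hv⟩
  have hK : (G.induce {v | φ v = α ∨ φ v = β}).connectedComponentMk ⟨v, hA v hv⟩ = K := rfl
  set K' : Set V := Subtype.val '' K.supp with hK'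
  have hKA : K' ⊆ A := chain_subset hcl (v := ⟨v, hA v hv⟩) hv
  have hvK : v ∈ K' := ⟨⟨v, hA v hv⟩, rfl, rfl⟩
  have hKcol : ∀ x ∈ K', φ x = α ∨ φ x = β := by
    rintro _ ⟨w, _, rfl⟩; exact w.2
  have hKcl : ∀ x ∈ K', ∀ y, G.Adj x y → (φ y = α ∨ φ y = β) → y ∈ K' :=
    fun x hx y hxy hy => mem_chain_of_adj K hxy hy hx
  let f1 : V → Fin 5 := fun x => if x ∈ K' then Equiv.swap α β (φ x) else φ x
  have hstep : Step G.Adj Set.univ φ f1 := by
    refine ⟨α, β, K', Set.subset_univ _, hKcol, fun x hx y _ => hKcl x hx y, ?_, ?_⟩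
    · intro x hx; simp only [f1, hx, if_true]
    · intro x hx; simp only [f1, hx, if_false]
  have hf1 : Proper G.Adj Set.univ f1 := hstep.proper (fun x y h => h.symm) (col_proper φ)
  let φ1 : G.Coloring (Fin 5) := mkc f1 hf1
  have e1 : ∀ x ∈ K', φ1 x = Equiv.swap α β (φ x) := by
    intro x hx
    change f1 x = _
    simp only [f1, hx, if_true]
  have e2 : ∀ x, x ∉ K' → φ1 x = φ x := by
    intro x hx
    change f1 x = _
    simp only [f1, hx, if_false]
  have hswap : IsKempeSwap φ φ1 := ⟨α, β, hαβ, K, e1, e2⟩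
  have hlt : (A \ K').ncard < n := by
    rw [← hn]
    apply Set.ncard_lt_ncard _ (Set.toFinite A)
    refine ⟨Set.sdiff_subset, fun h => ?_⟩
    exact (h hv).2 hvK
  refine ReflTransGen.head hswap (ih _ hlt (A \ K') rfl φ1 ψ ?_ ?_ ?_ ?_)
  · intro x hx
    rw [e2 x hx.2]; exact hA x hx.1
  · intro x hx y hxy hy
    by_cases hyK : y ∈ K'
    · exact absurd (hKcl y hyK x hxy.symm (hA x hx.1)) hx.2
    · rw [e2 y hyK] at hy
      exact ⟨hcl x hx.1 y hxy hy, hyK⟩
  · intro x hx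
    rw [e2 x hx.2]; exact h1 x hx.1
  · intro x hx
    by_cases hxA : x ∈ A
    · have hxK : x ∈ K' := by
        by_contra h
        exact hx ⟨hxA, h⟩
      rw [e1 x hxK]; exact h1 x hxA
    · rw [e2 x (fun h => hxA (hKA h))]
      exact h2 x hxA

theorem kempe_of_rtg [Finite V] (φ : G.Coloring (Fin 5)) {f : V → Fin 5}
    (h : ReflTransGen (Step G.Adj Set.univ) φ f) :
    ∃ hf : Proper G.Adj Set.univ f, KempeEquivalent φ (mkc f hf) := by
  induction h with
  | refl =>
    refine ⟨col_proper φ, ?_⟩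
    have : mkc (⇑φ) (col_proper φ) = φ := by ext v; rfl
    rw [this]
    exact ReflTransGen.refl
  | tail _ hs ih =>
    obtain ⟨hf, hk⟩ := ih
    have hf' := hs.proper (fun x y h => h.symm) hf
    refine ⟨hf', hk.trans ?_⟩
    obtain ⟨α, β, A, _, hA, hcl, h1, h2⟩ := hs
    by_cases hαβ : α = β
    · have : ∀ x, mkc _ hf' x = mkc _ hf x := by
        intro x
        by_cases hx : x ∈ A
        · change _ = _
          have := h1 x hx
          rw [hαβ, Equiv.swap_self] at this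
          exact this
        · exact h2 x hx
      have e : mkc _ hf' = mkc _ hf := by ext x; rw [this]
      exact e ▸ ReflTransGen.refl
    · exact kempe_of_closed hαβ _ A rfl (mkc _ hf) (mkc _ hf') hA
        (fun x hx y hxy => hcl x hx y (Set.mem_univ _) hxy) h1 h2

end Chains

lemma Step.pull {V W : Type} {G : V → V → Prop} {G' : W → W → Prop} (e : W → V)
    (he : ∀ u v, G' u v → G (e u) (e v)) {c c' : V → Fin 5} (h : Step G Set.univ c c') :
    Step G' Set.univ (c ∘ e) (c' ∘ e) := by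
  obtain ⟨α, β, A, hAS, hA, hcl, h1, h2⟩ := h
  refine ⟨α, β, e ⁻¹' A, fun _ _ => Set.mem_univ _, fun x hx => hA _ hx, ?_,
    fun x hx => h1 _ hx, fun x hx => h2 _ hx⟩
  intro x hx y _ hxy hyc
  exact hcl (e x) hx (e y) (Set.mem_univ _) (he x y hxy) hyc

lemma rtg_pull {V W : Type} {G : V → V → Prop} {G' : W → W → Prop} (e : W → V)
    (he : ∀ u v, G' u v → G (e u) (e v)) {c c' : V → Fin 5}
    (h : ReflTransGen (Step G Set.univ) c c') :
    ReflTransGen (Step G' Set.univ) (c ∘ e) (c' ∘ e) := by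
  induction h with
  | refl => exact ReflTransGen.refl
  | tail _ h ih => exact ih.tail (h.pull e he)

lemma swap_adj {a b : ℕ} {u v : ZMod a × ZMod b} (h : (TriGrid a b).Adj u v) :
    (TriGrid b a).Adj u.swap v.swap := by
  obtain ⟨h1, h2⟩ := h
  refine ⟨fun h => h1 (Prod.swap_injective h), ?_⟩
  have e : v.swap - u.swap = (v - u).swap := rfl
  rw [e]
  rcases h2 with h | h | h | h | h | h <;> rw [h] <;> simp

/-- The statement on the level of functions. -/
def AllJoined (a b : ℕ) : Prop := ∀ φ φ' : ZMod a × ZMod b → Fin 5,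
  Proper (TriGrid a b).Adj Set.univ φ → Proper (TriGrid a b).Adj Set.univ φ' →
  ReflTransGen (Step (TriGrid a b).Adj Set.univ) φ φ'

lemma AllJoined.swap {a b : ℕ} (h : AllJoined a b) : AllJoined b a := by
  intro φ φ' hφ hφ'
  have h1 := h (φ ∘ Prod.swap) (φ' ∘ Prod.swap)
    (fun u _ v _ huv => hφ _ (Set.mem_univ _) _ (Set.mem_univ _) (swap_adj huv))
    (fun u _ v _ huv => hφ' _ (Set.mem_univ _) _ (Set.mem_univ _) (swap_adj huv))
  have h2 := rtg_pull (G' := (TriGrid b a).Adj) Prod.swap (fun u v huv => swap_adj huv) h1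
  have e : ∀ φ : ZMod b × ZMod a → Fin 5, (φ ∘ Prod.swap) ∘ Prod.swap = φ := by
    intro φ; funext v; simp
  rwa [e, e] at h2

theorem AllJoined.kempe {a b : ℕ} (ha : 1 ≤ a) (hb : 1 ≤ b) (h : AllJoined a b)
    (φ ψ : (TriGrid a b).Coloring (Fin 5)) : KempeEquivalent φ ψ := by
  have : NeZero a := ⟨by omega⟩
  have : NeZero b := ⟨by omega⟩
  obtain ⟨hf, hk⟩ := kempe_of_rtg φ (h φ ψ (col_proper φ) (col_proper ψ))
  have e : mkc (⇑ψ) hf = ψ := by ext v; rfl
  rwa [e] at hk

end Pool.Agent.Helper43.Kempe
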