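import Pool.Agent.Helper43.Kempe.Lib
import Pool.Agent.Helper43.Kempe.Defs

/-!
# Coordinates on the grid, and soundness of the certificates for tori and strips
-/

namespace Pool.Agent.Helper43.Kempe

open Relation

/-- cyclic successor -/
def up (n i : ℕ) : ℕ := if i + 1 = n then 0 else i + 1

lemma val_add_one' {n : ℕ} (hn : 2 ≤ n) (x : ZMod n) : (x + 1).val = up n x.val := by
  have : NeZero n := ⟨by omega⟩
  have h1 : (1 : ZMod n).val = 1 := ZMod.val_one'' (by omega)
  have hx := ZMod.val_lt x
  rw [ZMod.val_add, h1]
  unfold up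
  split_ifs with h
  · rw [h, Nat.mod_self]
  · exact Nat.mod_eq_of_lt (by omega)

lemma up_lt {n i : ℕ} (hi : i < n) : up n i < n := by
  unfold up; split_ifs <;> omega

/-- adjacency in coordinates, `s` is the successor function for rows -/
def R (a : ℕ) (s : ℕ → ℕ) (x y : ℕ) : Prop :=
  (y % a = up a (x % a) ∧ y / a = x / a) ∨ (x % a = up a (y % a) ∧ y / a = x / a) ∨
  (y % a = x % a ∧ y / a = s (x / a)) ∨ (y % a = x % a ∧ x / a = s (y / a)) ∨
  (y % a = up a (x % a) ∧ y / a = s (x / a)) ∨ (x % a = up a (y % a) ∧ x / a = s (y / a))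

instance (a : ℕ) (s : ℕ → ℕ) (x y : ℕ) : Decidable (R a s x y) := by
  unfold R; infer_instance

section

variable {a b : ℕ}

def idx (v : ZMod a × ZMod b) : ℕ := v.2.val * a + v.1.val

def vtx (a b n : ℕ) : ZMod a × ZMod b := (((n % a : ℕ) : ZMod a), ((n / a : ℕ) : ZMod b))

lemma idx_mod (ha : 2 ≤ a) (v : ZMod a × ZMod b) : idx v % a = v.1.val := by
  have : NeZero a := ⟨by omega⟩
  have := ZMod.val_lt v.1
  unfold idx
  rw [mul_comm, Nat.mul_add_mod, Nat.mod_eq_of_lt this]

lemma idx_div (ha : 2 ≤ a) (v : ZMod a × ZMod b) : idx v / a = v.2.val := by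
  have : NeZero a := ⟨by omega⟩
  have := ZMod.val_lt v.1
  unfold idx
  rw [mul_comm, Nat.mul_add_div (by omega), Nat.div_eq_of_lt this, add_zero]

lemma idx_lt (ha : 2 ≤ a) (hb : 2 ≤ b) (v : ZMod a × ZMod b) : idx v < a * b := by
  have : NeZero a := ⟨by omega⟩
  have : NeZero b := ⟨by omega⟩
  have h1 := ZMod.val_lt v.1
  have h2 := ZMod.val_lt v.2
  unfold idx
  calc v.2.val * a + v.1.val < v.2.val * a + a := by omega
    _ = (v.2.val + 1) * a := by ring
    _ ≤ b * a := Nat.mul_le_mul_right a h2
    _ = a * b := mul_comm _ _

lemma vtx_idx (ha : 2 ≤ a) (hb : 2 ≤ b) (v : ZMod a × ZMod b) : vtx a b (idx v) = v := by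
  have : NeZero a := ⟨by omega⟩
  have : NeZero b := ⟨by omega⟩
  unfold vtx
  rw [idx_mod ha, idx_div ha]
  ext
  · exact ZMod.natCast_zmod_val _
  · exact ZMod.natCast_zmod_val _

lemma vtx_fst (ha : 2 ≤ a) (n : ℕ) : (vtx a b n).1.val = n % a := by
  have : NeZero a := ⟨by omega⟩
  unfold vtx
  exact ZMod.val_cast_of_lt (Nat.mod_lt _ (by omega))

lemma vtx_snd {n : ℕ} (hn : n < a * b) : (vtx a b n).2.val = n / a := by
  unfold vtx
  exact ZMod.val_cast_of_lt (Nat.div_lt_of_lt_mul hn)

lemma idx_vtx (ha : 2 ≤ a) {n : ℕ} (hn : n < a * b) : idx (vtx a b n) = n := by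
  unfold idx
  rw [vtx_fst ha, vtx_snd hn]
  exact Nat.div_add_mod' n a

lemma adj_cases {u v : ZMod a × ZMod b} (h : (TriGrid a b).Adj u v) :
    v = u + (1, 0) ∨ v = u - (1, 0) ∨ v = u + (0, 1) ∨ v = u - (0, 1) ∨
    v = u + (1, 1) ∨ v = u - (1, 1) := by
  obtain ⟨_, h⟩ := h
  have e : v = u + (v - u) := by ring
  rcases h with h | h | h | h | h | h <;> rw [h] at e
  · left; exact e
  · right; left; rw [e]; ext <;> simp [sub_eq_add_neg]
  · right; right; left; exact e
  · right; right; right; left; rw [e]; ext <;> simp [sub_eq_add_neg]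
  · right; right; right; right; left; exact e
  · right; right; right; right; right; rw [e]; ext <;> simp [sub_eq_add_neg]

lemma adj_R (ha : 2 ≤ a) (hb : 2 ≤ b) {u v : ZMod a × ZMod b} (h : (TriGrid a b).Adj u v) :
    R a (up b) (idx u) (idx v) := by
  unfold R
  simp only [idx_mod ha, idx_div ha]
  rcases adj_cases h with rfl | rfl | rfl | rfl | rfl | rfl
  · left; simp [val_add_one' ha]
  · right; left; simp [← val_add_one' ha]
  · right; right; left; simp [val_add_one' hb]
  · right; right; right; left; simp [← val_add_one' hb]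
  · right; right; right; right; left; simp [val_add_one' ha, val_add_one' hb]
  · right; right; right; right; right; simp [← val_add_one' ha, ← val_add_one' hb]

lemma R_adj (ha : 2 ≤ a) (hb : 2 ≤ b) {x y : ℕ} (hx : x < a * b) (hy : y < a * b)
    (h : R a (up b) x y) : (TriGrid a b).Adj (vtx a b x) (vtx a b y) := by
  have : NeZero a := ⟨by omega⟩
  have : NeZero b := ⟨by omega⟩
  have : Fact (1 < a) := ⟨by omega⟩
  have : Fact (1 < b) := ⟨by omega⟩
  have e1 : ∀ {x y : ℕ}, y % a = up a (x % a) → (vtx a b y).1 = (vtx a b x).1 + 1 := by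
    intro x y h
    apply ZMod.val_injective a
    rw [val_add_one' ha, vtx_fst ha, vtx_fst ha, h]
  have e2 : ∀ {x y : ℕ}, x < a * b → y < a * b → y / a = up b (x / a) →
      (vtx a b y).2 = (vtx a b x).2 + 1 := by
    intro x y hx hy h
    apply ZMod.val_injective b
    rw [val_add_one' hb, vtx_snd hx, vtx_snd hy, h]
  have e3 : ∀ {x y : ℕ}, y % a = x % a → (vtx a b y).1 = (vtx a b x).1 := by
    intro x y h
    apply ZMod.val_injective a
    rw [vtx_fst ha, vtx_fst ha, h]
  have e4 : ∀ {x y : ℕ}, x < a * b → y < a * b → y / a = x / a →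
      (vtx a b y).2 = (vtx a b x).2 := by
    intro x y hx hy h
    apply ZMod.val_injective b
    rw [vtx_snd hx, vtx_snd hy, h]
  have key : vtx a b y - vtx a b x = (1, 0) ∨ vtx a b y - vtx a b x = (-1, 0) ∨
      vtx a b y - vtx a b x = (0, 1) ∨ vtx a b y - vtx a b x = (0, -1) ∨
      vtx a b y - vtx a b x = (1, 1) ∨ vtx a b y - vtx a b x = (-1, -1) := by
    rcases h with ⟨h1, h2⟩ | ⟨h1, h2⟩ | ⟨h1, h2⟩ | ⟨h1, h2⟩ | ⟨h1, h2⟩ | ⟨h1, h2⟩
    · left; ext
      · simp [e1 h1]
      · simp [e4 hx hy h2]
    · right; left; ext
      · simp [e1 h1]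
      · simp [e4 hx hy h2]
    · right; right; left; ext
      · simp [e3 h1]
      · simp [e2 hx hy h2]
    · right; right; right; left; ext
      · simp [e3 h1]
      · simp [e2 hy hx h2]
    · right; right; right; right; left; ext
      · simp [e1 h1]
      · simp [e2 hx hy h2]
    · right; right; right; right; right; ext
      · simp [e1 h1]
      · simp [e2 hy hx h2]
  refine ⟨?_, key⟩
  intro he
  rw [he, sub_self] at key
  rcases key with h | h | h | h | h | h <;> simp [Prod.ext_iff] at h

end

lemma rep_of_mg : ∀ (ps : List (ℕ × ℕ)) (x : ℕ), (mg ps).testBit x = true → (x, rep ps x) ∈ ps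
  | [], x, h => by simp [mg] at h
  | q :: ps, x, h => by
    by_cases hx : x = q.1
    · have h1 : rep (q :: ps) x = q.2 := by simp [rep, hx]
      rw [h1, hx]; simp
    · have h1 : rep (q :: ps) x = rep ps x := by
        have : Nat.beq x q.1 = false := by
          rw [Bool.eq_false_iff]; intro hh; exact hx (Nat.eq_of_beq_eq_true hh)
        simp [rep, this]
      rw [h1]
      simp only [mg, testBit_setb, Bool.or_eq_true, decide_eq_true_eq] at h
      rcases h with h | h
      · exact List.mem_cons_of_mem _ (rep_of_mg ps x h)
      · exact absurd h.symm hx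

lemma rep_unmerged {ps : List (ℕ × ℕ)} {lo hi : ℕ} (hv : valid (mg ps) lo hi ps = true) (x : ℕ) :
    (mg ps).testBit (rep ps x) = false := by
  by_cases h : (mg ps).testBit x = true
  · exact (valid_sound ps hv _ (rep_of_mg ps x h)).2.2
  · rw [Bool.not_eq_true] at h
    rw [rep_eq_self h]; exact h

lemma badm_lt {B w x : ℕ} (h : (badm B w).testBit x = true) : x < 32 := by
  unfold badm at h
  change ((B.shiftRight (Nat.mul 32 w)) &&& 0xffffffff).testBit x = true at h
  rw [Nat.testBit_and, Bool.and_eq_true] at h
  have h2 := h.2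
  have e : (0xffffffff : ℕ) = 2 ^ 32 - 1 := by norm_num
  rw [e, Nat.testBit_two_pow_sub_one] at h2
  simpa using h2

/-! ### Tori -/

def goodT (A N FULL : ℕ) (ps : List (ℕ × ℕ)) (O : ℕ) : Bool :=
  and (valid (mg ps) 0 N ps) (elim2 A FULL ps (mg ps) 64 O (mg ps))

theorem goodT_sound {a b A N FULL : ℕ} (ha : 2 ≤ a) (hb : 2 ≤ b) (hN : N = a * b) (hN' : N ≤ 32)
    (hF : FULL = 2 ^ N - 1)
    (hA : ∀ x < N, ∀ y < N, R a (up b) x y → bt (adj A x) y = true) :
    GoodSound (TriGrid a b).Adj idx (a * b) 0 (goodT A N FULL) := by
  intro ps O h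
  unfold goodT at h
  rw [Bool.and_eq_true] at h
  obtain ⟨hv, he⟩ := h
  subst hF
  have hvs := valid_sound ps hv
  refine ⟨?_, SS N (mg ps), ?_, ?_⟩
  · intro q hq
    obtain ⟨h1, h2, _⟩ := hvs q hq
    refine ⟨⟨h1.1, hN ▸ h1.2⟩, h2.1, hN ▸ h2.2, by omega⟩
  · refine elim2_sound (Quo.symm _ _ fun u v h => h.symm) (R0 := mg ps) ?_ 64 O (mg ps)
      (fun x hx => hx) he
    rintro l x _ _ _ _ ⟨u, v, huv, rfl, rfl⟩
    refine ⟨idx u, idx v, rfl, ?_, rfl⟩
    rw [← bt_eq]
    exact hA _ (hN ▸ idx_lt ha hb u) _ (hN ▸ idx_lt ha hb v) (adj_R ha hb huv)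
  · intro v
    refine ⟨?_, rep_unmerged hv _⟩
    by_cases h : (mg ps).testBit (idx v) = true
    · exact (hvs _ (rep_of_mg ps _ h)).2.1.2
    · rw [Bool.not_eq_true] at h
      rw [rep_eq_self h, hN]
      exact idx_lt ha hb v

theorem torus_main {a b A B N FULL P0 : ℕ} (ha : 2 ≤ a) (hb : 2 ≤ b) (hN : N = a * b)
    (hN' : N ≤ 32) (hF : FULL = 2 ^ N - 1)
    (hA : ∀ x < N, ∀ y < N, R a (up b) x y → bt (adj A x) y = true)
    (hB : ∀ w < N, ∀ x < 32, bt (badm B w) x = true → x < N ∧ R a (up b) x w)
    {lib : List (List Tm)} (hlen : lib.length = N)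
    (hlib : ∀ g ∈ lib, ∀ t ∈ g, chk 0 P0 (goodT A N FULL) lib t = true)
    (hcov : cov B lib 0 [] 0 = true) {φ φ' : ZMod a × ZMod b → Fin 5}
    (hφ : Proper (TriGrid a b).Adj Set.univ φ) (hφ' : Proper (TriGrid a b).Adj Set.univ φ') :
    ReflTransGen (Step (TriGrid a b).Adj Set.univ) φ φ' := by
  refine lib_main (idx := idx) (vtx := vtx a b) (n0 := a * b) (vtx_idx ha hb)
    (fun n hn => idx_vtx ha hn) (goodT_sound ha hb hN hN' hF hA) hlib (by omega) ?_ hcov hφ hφ'
  intro w x hw hx
  rw [hlen] at hw
  rw [add_zero, add_zero]
  have hx32 := badm_lt hx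
  rw [← bt_eq] at hx
  obtain ⟨h1, h2⟩ := hB w hw x hx32 hx
  exact R_adj ha hb (by omega) (by omega) h2

/-! ### Strips -/

def goodS (A a N N1 LAST FULL : ℕ) (ps : List (ℕ × ℕ)) (O : ℕ) : Bool :=
  and (valid (mg ps) a N1 ps) (elim1 A FULL ps (mg ps) a N1 LAST 64 O (mg ps))

section Strip

variable {a b M : ℕ}

lemma row_lt {i j M a : ℕ} (hi : i < a) : j * a + i < (M + 2) * a ↔ j < M + 2 := by
  constructor
  · intro h
    by_contra hj
    have : (M + 2) * a ≤ j * a := Nat.mul_le_mul_right a (by omega)
    omega
  · intro h
    have : (j + 1) * a ≤ (M + 2) * a := Nat.mul_le_mul_right a (by omega)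
    have e : (j + 1) * a = j * a + a := by ring
    omega

lemma lt_row {i j k a : ℕ} (hi : i < a) : j * a + i < k * a ↔ j < k := by
  constructor
  · intro h
    by_contra hj
    have : k * a ≤ j * a := Nat.mul_le_mul_right a (by omega)
    omega
  · intro h
    have : (j + 1) * a ≤ k * a := Nat.mul_le_mul_right a (by omega)
    have e : (j + 1) * a = j * a + a := by ring
    omega

lemma idx_lt_row (ha : 2 ≤ a) (v : ZMod a × ZMod b) (k : ℕ) : idx v < k * a ↔ v.2.val < k := by
  have : NeZero a := ⟨by omega⟩
  exact lt_row (ZMod.val_lt v.1)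

lemma local_or_outer (ha : 2 ≤ a) (hb : M + 2 ≤ b) {u v : ZMod a × ZMod b}
    (h : (TriGrid a b).Adj u v) (hu : idx u < (M + 2) * a) :
    (R a Nat.succ (idx u) (idx v) ∧ idx v < (M + 2) * a) ∨
    (idx u < a ∧ (v = u - (0, 1) ∨ v = u - (1, 1)) ∧ (M + 1) * a ≤ idx v) ∨
    ((M + 1) * a ≤ idx u ∧ (v = u + (0, 1) ∨ v = u + (1, 1)) ∧
      ((M + 2) * a ≤ idx v ∨ idx v < a)) := by
  have hb2 : 2 ≤ b := by omega
  have : NeZero a := ⟨by omega⟩
  have : NeZero b := ⟨by omega⟩
  have hrow : ∀ (v : ZMod a × ZMod b), idx v < a ↔ v.2.val < 1 := by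
    intro v
    have := idx_lt_row ha v 1
    rwa [one_mul] at this
  have hge : ∀ (v : ZMod a × ZMod b) (k : ℕ), k * a ≤ idx v ↔ k ≤ v.2.val := by
    intro v k
    rw [← not_lt, ← not_lt, idx_lt_row ha]
  rw [idx_lt_row ha] at hu
  rw [hrow, hrow, hge, hge, hge, idx_lt_row ha]
  have hvb := ZMod.val_lt v.2
  have hub := ZMod.val_lt u.2
  unfold R
  simp only [idx_mod ha, idx_div ha]
  have hup : ∀ i : ℕ, i < b → (i + 1 = b ∧ up b i = 0) ∨ (i + 1 < b ∧ up b i = i + 1) := by
    intro i hi
    unfold up
    split_ifs with h
    · left; exact ⟨h, rfl⟩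
    · right; exact ⟨by omega, rfl⟩
  rcases adj_cases h with rfl | rfl | rfl | rfl | rfl | rfl
  · left
    refine ⟨Or.inl ⟨by simp [val_add_one' ha], by simp⟩, ?_⟩
    simpa using hu
  · left
    refine ⟨Or.inr (Or.inl ⟨by simp [← val_add_one' ha], by simp⟩), ?_⟩
    simpa using hu
  · have e : (u + ((0, 1) : ZMod a × ZMod b)).2.val = up b u.2.val := by
      rw [← val_add_one' hb2]; rfl
    rcases hup _ hub with ⟨h1, h2⟩ | ⟨h1, h2⟩
    · right; right
      refine ⟨by omega, Or.inl rfl, ?_⟩
      rw [e, h2]; right; omega
    · by_cases hM : u.2.val + 1 < M + 2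
      · left
        refine ⟨Or.inr (Or.inr (Or.inl ⟨by simp, by rw [e, h2]⟩)), ?_⟩
        rw [e, h2]; exact hM
      · right; right
        refine ⟨by omega, Or.inl rfl, ?_⟩
        rw [e, h2]; left; omega
  · have e : u.2.val = up b (u - ((0, 1) : ZMod a × ZMod b)).2.val := by
      rw [← val_add_one' hb2]; simp
    rcases hup _ hvb with ⟨h1, h2⟩ | ⟨h1, h2⟩
    · right; left
      rw [h2] at e
      refine ⟨by omega, Or.inl rfl, by omega⟩
    · left
      refine ⟨Or.inr (Or.inr (Or.inr (Or.inl ⟨by simp, by rw [e, h2]⟩))), by omega⟩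
  · have e : (u + ((1, 1) : ZMod a × ZMod b)).2.val = up b u.2.val := by
      rw [← val_add_one' hb2]; rfl
    rcases hup _ hub with ⟨h1, h2⟩ | ⟨h1, h2⟩
    · right; right
      refine ⟨by omega, Or.inr rfl, ?_⟩
      rw [e, h2]; right; omega
    · by_cases hM : u.2.val + 1 < M + 2
      · left
        refine ⟨Or.inr (Or.inr (Or.inr (Or.inr (Or.inl ⟨by simp [val_add_one' ha],
          by rw [e, h2]⟩)))), ?_⟩
        rw [e, h2]; exact hM
      · right; right
        refine ⟨by omega, Or.inr rfl, ?_⟩
        rw [e, h2]; left; omega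
  · have e : u.2.val = up b (u - ((1, 1) : ZMod a × ZMod b)).2.val := by
      rw [← val_add_one' hb2]; simp
    rcases hup _ hvb with ⟨h1, h2⟩ | ⟨h1, h2⟩
    · right; left
      rw [h2] at e
      refine ⟨by omega, Or.inr rfl, by omega⟩
    · left
      refine ⟨Or.inr (Or.inr (Or.inr (Or.inr (Or.inr ⟨by simp [← val_add_one' ha],
        by rw [e, h2]⟩)))), by omega⟩

theorem goodS_sound {A N N1 LAST FULL : ℕ} (ha : 2 ≤ a) (hb : M + 2 ≤ b)
    (hN : N = (M + 2) * a) (hN1 : N1 = (M + 1) * a) (hN' : N1 ≤ a + 32)
    (hF : FULL = 2 ^ N - 1)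
    (hA : ∀ x < N, ∀ y < N, R a Nat.succ x y → bt (adj A x) y = true)
    (hL : ∀ x < N, N1 ≤ x → bt LAST x = true) :
    GoodSound (TriGrid a b).Adj idx (a * b) a (goodS A a N N1 LAST FULL) := by
  intro ps O h
  unfold goodS at h
  rw [Bool.and_eq_true] at h
  obtain ⟨hv, he⟩ := h
  subst hF
  have hb2 : 2 ≤ b := by omega
  have hvs := valid_sound ps hv
  have hab : N ≤ a * b := by
    rw [hN, mul_comm a b]; exact Nat.mul_le_mul_right a hb
  have hN1N : N1 + a = N := by rw [hN, hN1]; ring
  have haN1 : a ≤ N1 := by
    rw [hN1]; nlinarith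
  have hrepout : ∀ x, x < a ∨ N1 ≤ x → rep ps x = x := by
    intro x hx
    apply rep_eq_self
    by_contra hne
    have := (hvs _ (rep_of_mg ps x (by simpa using hne))).1
    simp only at this
    omega
  have hrepin : ∀ x, rep ps x < a ∨ N1 ≤ rep ps x → rep ps x = x := by
    intro x hx
    rcases rep_cases ps x with h | h
    · exact h.symm
    · have := (hvs _ h).2.1
      simp only at this
      omega
  have hreplt : ∀ x, x < N → rep ps x < N := by
    intro x hx
    rcases rep_cases ps x with h | h
    · rw [← h]; exact hx
    · have := (hvs _ h).2.1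
      simp only at this
      omega
  have hrepge : ∀ x, rep ps x < N → x < N := by
    intro x hx
    rcases rep_cases ps x with h | h
    · rw [h]; exact hx
    · have := (hvs _ h).1
      simp only at this
      omega
  set T : Set ℕ := {x | N ≤ x ∧ x < a * b} with hT
  have hsymm := Quo.symm (TriGrid a b).Adj (fun v => rep ps (idx v)) (fun u v h => h.symm)
  refine ⟨?_, SS N (mg ps) ∪ T, ?_, ?_⟩
  · intro q hq
    obtain ⟨h1, h2, _⟩ := hvs q hq
    refine ⟨⟨h1.1, by omega⟩, h2.1, by omega, by omega⟩
  · refine elim1_sound hsymm (R0 := mg ps) (T := T) (fun x hx => hx.1) ?_ ?_ ?_ 64 O (mg ps)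
      (fun x hx => hx) he
    · -- sweeping
      intro R' hR0 hRL hKC
      have key : ∀ k, k ≤ a * b - N → KC (Quo (TriGrid a b).Adj (fun v => rep ps (idx v)))
          (SS N R' ∪ {x | a * b - k ≤ x ∧ x < a * b}) := by
        intro k
        induction k with
        | zero =>
          intro _
          have : SS N R' ∪ {x | a * b - 0 ≤ x ∧ x < a * b} = SS N R' := by
            ext x
            simp only [Set.mem_union, Set.mem_ofPred_eq]
            constructor
            · rintro (h | h)
              · exact h
              · omega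
            · exact Or.inl
          rw [this]; exact hKC
        | succ k ih =>
          intro hk
          have ih' := ih (by omega)
          set m := a * b - (k + 1) with hm
          have hset : SS N R' ∪ {x | m ≤ x ∧ x < a * b} =
              insert m (SS N R' ∪ {x | a * b - k ≤ x ∧ x < a * b}) := by
            ext x
            simp only [Set.mem_union, Set.mem_insert_iff, Set.mem_ofPred_eq]
            constructor
            · rintro (h | h)
              · right; left; exact h
              · by_cases hx : x = m
                · left; exact hx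
                · right; right; omega
            · rintro (h | h | h)
              · right; omega
              · left; exact h
              · right; omega
          rw [hset]
          have hmN : N ≤ m := by omega
          have hmab : m < a * b := by omega
          set u := vtx a b m with hu
          have hidxu : idx u = m := idx_vtx ha hmab
          have hu' : ∀ u' : ZMod a × ZMod b, rep ps (idx u') = m → u' = u := by
            intro u' h
            have h1 : idx u' = m := by
              have := hrepin (idx u') (by rw [h]; omega)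
              rw [← this]; exact h
            rw [← vtx_idx ha hb2 u', h1]
          have hrow : M + 2 ≤ u.2.val := by
            have := idx_lt_row ha u (M + 2)
            rw [hidxu, ← hN] at this
            by_contra hlt
            have := this.2 (by omega)
            omega
          let f : ZMod a × ZMod b → ℕ := fun v => rep ps (idx v)
          -- lower neighbours are gone
          have hlow : ∀ v : ZMod a × ZMod b, v.2.val + 1 = u.2.val → rep ps (idx v) ∈
              SS N R' ∪ {x | a * b - k ≤ x ∧ x < a * b} → False := by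
            intro v hv2 hx
            have : NeZero a := ⟨by omega⟩
            have h1 : N1 ≤ idx v := by
              have := idx_lt_row ha v (M + 1)
              rw [← hN1] at this
              by_contra hlt
              have := this.1 (by omega)
              omega
            have h2 : idx v < m := by
              have h3 : v.2.val + 1 = u.2.val := hv2
              have h4 := idx_lt_row ha v (u.2.val)
              have h5 := h4.2 (by omega)
              have h6 : u.2.val * a ≤ m := by
                rw [← hidxu]; unfold idx; omega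
              omega
            rw [hrepout _ (Or.inr h1)] at hx
            rcases hx with hx | hx
            · have h7 := hRL (idx v) (by
                rw [← bt_eq]; exact hL _ hx.1 h1)
              rw [hx.2] at h7
              exact absurd h7 (by simp)
            · have := hx.1
              omega
          refine KC.insert hsymm ?_ {f (u + (1, 0)), f (u - (1, 0)), f (u + (0, 1)),
            f (u + (1, 1))} Finset.card_le_four ?_ ih'
          · rintro ⟨u1, u2, h12, h1, h2⟩
            have e1 := hu' u1 h1
            have e2 := hu' u2 h2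
            rw [e1, e2] at h12
            exact (TriGrid a b).loopless.irrefl _ h12
          · rintro x hx ⟨u1, v, h12, h1, h2⟩
            have e1 := hu' u1 h1
            rw [e1] at h12
            replace h2 : rep ps (idx v) = x := h2
            subst h2
            have hval : ∀ w : ZMod a × ZMod b, u.2 = w.2 + 1 → w.2.val + 1 = u.2.val := by
              intro w hw
              have h3 : u.2.val = up b w.2.val := by rw [hw, val_add_one' hb2]
              unfold up at h3
              split_ifs at h3 with h4
              · omega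
              · exact h3.symm
            rcases adj_cases h12 with rfl | rfl | rfl | rfl | rfl | rfl
            · simp [f]
            · simp [f]
            · simp [f]
            · exact (hlow _ (hval _ (by simp)) hx).elim
            · simp [f]
            · exact (hlow _ (hval _ (by simp)) hx).elim
      have h1 := key (a * b - N) le_rfl
      have h2 : a * b - (a * b - N) = N := by omega
      rw [h2] at h1
      exact h1
    · -- phase one neighbours
      intro l hl hl0
      by_cases hl1 : l < a
      · rw [if_pos (Or.inl hl1)]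
        set u := vtx a b l with hu
        refine ⟨{rep ps (idx (u - (0, 1))), rep ps (idx (u - (1, 1)))}, Finset.card_le_two, ?_, ?_⟩
        · rintro x hx ⟨u1, v, h12, h1, h2⟩
          replace h1 : rep ps (idx u1) = l := h1
          replace h2 : rep ps (idx v) = x := h2
          subst h2
          have h3 : idx u1 = l := by
            have := hrepin (idx u1) (by rw [h1]; omega)
            rw [← this]; exact h1
          have h4 : u1 = u := by rw [← vtx_idx ha hb2 u1, h3]
          have h5 : N ≤ idx v := by
            by_contra hlt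
            have := hreplt (idx v) (by omega)
            have := hx.1
            omega
          rcases local_or_outer (M := M) ha hb h12 (by rw [h3, ← hN]; omega) with h | h | h
          · omega
          · rcases h.2.1 with h | h <;> rw [h, h4] <;> simp
          · omega
        · rintro x hx hx0 ⟨u1, v, h12, h1, h2⟩
          replace h1 : rep ps (idx u1) = l := h1
          replace h2 : rep ps (idx v) = x := h2
          subst h2
          have h3 : idx u1 = l := by
            have := hrepin (idx u1) (by rw [h1]; omega)
            rw [← this]; exact h1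
          have h4 : u1 = u := by rw [← vtx_idx ha hb2 u1, h3]
          rcases local_or_outer (M := M) ha hb h12 (by rw [h3, ← hN]; omega) with h | h | h
          · left
            refine ⟨idx u1, idx v, h1, ?_, rfl⟩
            rw [← bt_eq]
            exact hA _ (by omega) _ (by omega) h.1
          · right
            refine ⟨?_, ?_⟩
            · rcases h.2.1 with h | h <;> rw [h, h4] <;> simp
            · have := hrepout (idx v) (Or.inr (by omega))
              rw [this]; omega
          · omega
      · by_cases hl2 : N1 ≤ l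
        · rw [if_pos (Or.inr hl2)]
          set u := vtx a b l with hu
          refine ⟨{rep ps (idx (u + (0, 1))), rep ps (idx (u + (1, 1)))}, Finset.card_le_two,
            ?_, ?_⟩
          · rintro x hx ⟨u1, v, h12, h1, h2⟩
            replace h1 : rep ps (idx u1) = l := h1
            replace h2 : rep ps (idx v) = x := h2
            subst h2
            have h3 : idx u1 = l := by
              have := hrepin (idx u1) (by rw [h1]; omega)
              rw [← this]; exact h1
            have h4 : u1 = u := by rw [← vtx_idx ha hb2 u1, h3]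
            have h5 : N ≤ idx v := by
              by_contra hlt
              have := hreplt (idx v) (by omega)
              have := hx.1
              omega
            rcases local_or_outer (M := M) ha hb h12 (by rw [h3, ← hN]; omega) with h | h | h
            · omega
            · omega
            · rcases h.2.1 with h | h <;> rw [h, h4] <;> simp
          · rintro x hx hx0 ⟨u1, v, h12, h1, h2⟩
            replace h1 : rep ps (idx u1) = l := h1
            replace h2 : rep ps (idx v) = x := h2
            subst h2
            have h3 : idx u1 = l := by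
              have := hrepin (idx u1) (by rw [h1]; omega)
              rw [← this]; exact h1
            have h4 : u1 = u := by rw [← vtx_idx ha hb2 u1, h3]
            rcases local_or_outer (M := M) ha hb h12 (by rw [h3, ← hN]; omega) with h | h | h
            · left
              refine ⟨idx u1, idx v, h1, ?_, rfl⟩
              rw [← bt_eq]
              exact hA _ (by omega) _ (by omega) h.1
            · omega
            · right
              refine ⟨?_, ?_⟩
              · rcases h.2.1 with h | h <;> rw [h, h4] <;> simp
              · have hvN : idx v < N := hrepge _ hx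
                have hva : idx v < a := by omega
                have := hrepout (idx v) (Or.inl hva)
                rw [this]; omega
        · rw [if_neg (by omega)]
          have hin : ∀ u : ZMod a × ZMod b, rep ps (idx u) = l → a ≤ idx u ∧ idx u < N1 := by
            intro u h1
            constructor
            · by_contra hlt
              have := hrepout (idx u) (Or.inl (by omega))
              omega
            · by_contra hlt
              have := hrepout (idx u) (Or.inr (by omega))
              omega
          refine ⟨∅, by simp, ?_, ?_⟩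
          · rintro x hx ⟨u1, v, h12, h1, h2⟩
            replace h1 : rep ps (idx u1) = l := h1
            replace h2 : rep ps (idx v) = x := h2
            subst h2
            exfalso
            have h3 := hin u1 h1
            have h5 : N ≤ idx v := by
              by_contra hlt
              have := hreplt (idx v) (by omega)
              have := hx.1
              omega
            rcases local_or_outer (M := M) ha hb h12 (by rw [← hN]; omega) with h | h | h
            · omega
            · omega
            · omega
          · rintro x hx hx0 ⟨u1, v, h12, h1, h2⟩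
            replace h1 : rep ps (idx u1) = l := h1
            replace h2 : rep ps (idx v) = x := h2
            subst h2
            have h3 := hin u1 h1
            left
            rcases local_or_outer (M := M) ha hb h12 (by rw [← hN]; omega) with h | h | h
            · refine ⟨idx u1, idx v, h1, ?_, rfl⟩
              rw [← bt_eq]
              exact hA _ (by omega) _ (by omega) h.1
            · omega
            · omega
    · -- phase two neighbours
      rintro l x hl hx hl0 hx0 hlL hxL ⟨u1, v, h12, h1, h2⟩
      replace h1 : rep ps (idx u1) = l := h1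
      replace h2 : rep ps (idx v) = x := h2
      have hu1 : idx u1 < N := hrepge _ (by omega)
      have hv1 : idx v < N := hrepge _ (by omega)
      have hno : ∀ w : ZMod a × ZMod b, idx w < N → N1 ≤ idx w →
          LAST.testBit (rep ps (idx w)) = true := by
        intro w hw1 hw2
        rw [hrepout _ (Or.inr hw2), ← bt_eq]
        exact hL _ hw1 hw2
      rcases local_or_outer (M := M) ha hb h12 (by rw [← hN]; omega) with h | h | h
      · refine ⟨idx u1, idx v, h1, ?_, h2⟩
        rw [← bt_eq]
        exact hA _ (by omega) _ (by omega) h.1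
      · exfalso
        have := hno v hv1 (by omega)
        rw [h2, hxL] at this
        exact absurd this (by simp)
      · exfalso
        have := hno u1 hu1 (by omega)
        rw [h1, hlL] at this
        exact absurd this (by simp)
  · intro v
    by_cases h : idx v < N
    · left
      exact ⟨hreplt _ h, rep_unmerged hv _⟩
    · right
      have := hrepout (idx v) (Or.inr (by omega))
      change rep ps (idx v) ∈ T
      rw [this]
      exact ⟨by omega, idx_lt ha hb2 v⟩

theorem strip_main {A B N N1 LAST FULL P0 : ℕ} (ha : 2 ≤ a) (hb : M + 2 ≤ b)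
    (hN : N = (M + 2) * a) (hN1 : N1 = (M + 1) * a) (hN' : N1 ≤ a + 32)
    (hF : FULL = 2 ^ N - 1)
    (hA : ∀ x < N, ∀ y < N, R a Nat.succ x y → bt (adj A x) y = true)
    (hL : ∀ x < N, N1 ≤ x → bt LAST x = true)
    (hB : ∀ w < N1 - a, ∀ x < 32, bt (badm B w) x = true → x < N1 - a ∧
      R a Nat.succ (x + a) (w + a))
    {lib : List (List Tm)} (hlen : lib.length = N1 - a)
    (hlib : ∀ g ∈ lib, ∀ t ∈ g, chk a P0 (goodS A a N N1 LAST FULL) lib t = true)
    (hcov : cov B lib 0 [] 0 = true) {φ φ' : ZMod a × ZMod b → Fin 5}
    (hφ : Proper (TriGrid a b).Adj Set.univ φ) (hφ' : Proper (TriGrid a b).Adj Set.univ φ') :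
    ReflTransGen (Step (TriGrid a b).Adj Set.univ) φ φ' := by
  have hb2 : 2 ≤ b := by omega
  have hab : N ≤ a * b := by
    rw [hN, mul_comm a b]; exact Nat.mul_le_mul_right a hb
  have hN1N : N1 + a = N := by rw [hN, hN1]; ring
  refine lib_main (idx := idx) (vtx := vtx a b) (n0 := a * b) (vtx_idx ha hb2)
    (fun n hn => idx_vtx ha hn) (goodS_sound (M := M) ha hb hN hN1 hN' hF hA hL) hlib (by omega)
    ?_ hcov hφ hφ'
  intro w x hw hx
  rw [hlen] at hw
  have hx32 := badm_lt hx
  rw [← bt_eq] at hx
  obtain ⟨h1, h2⟩ := hB w hw x hx32 hx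
  refine R_adj ha hb2 (by omega) (by omega) ?_
  have hdiv : ∀ y, y < N → y / a < M + 2 := by
    intro y hy
    apply Nat.div_lt_of_lt_mul
    rw [mul_comm a]; omega
  have d1 := hdiv (x + a) (by omega)
  have d2 := hdiv (w + a) (by omega)
  have hup : ∀ i j : ℕ, j < M + 2 → j = Nat.succ i → j = up b i := by
    intro i j hj hij
    unfold up
    rw [if_neg (by omega)]; exact hij
  rcases h2 with h | h | h | h | h | h
  · exact Or.inl h
  · exact Or.inr (Or.inl h)
  · exact Or.inr (Or.inr (Or.inl ⟨h.1, hup _ _ d2 h.2⟩))
  · exact Or.inr (Or.inr (Or.inr (Or.inl ⟨h.1, hup _ _ d1 h.2⟩)))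
  · exact Or.inr (Or.inr (Or.inr (Or.inr (Or.inl ⟨h.1, hup _ _ d2 h.2⟩))))
  · exact Or.inr (Or.inr (Or.inr (Or.inr (Or.inr ⟨h.1, hup _ _ d1 h.2⟩))))

end Strip

end Pool.Agent.Helper43.Kempe
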