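import Pool.Agent.Helper43.Kempe.Check

/-!
# Libraries of templates and the covering check
-/

namespace Pool.Agent.Helper43.Kempe

open Relation

/-- A template with its certificates: `m` the mask of identified pairs, `P` the packed list of
identified pairs, `O` an elimination order, `d` the depth, `par` the parent, `J` and `Q` the joint
list of pairs with its elimination order. -/
structure Tm where
  m : ℕ
  P : ℕ
  O : ℕ
  d : ℕ
  par : ℕ
  J : ℕ
  Q : ℕ

def unp : ℕ → ℕ → List (ℕ × ℕ)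
  | 0, _ => []
  | k + 1, n => cond (Nat.beq n 0) []
      ((Nat.mod n 64, Nat.mod (Nat.div n 64) 64) :: unp k (Nat.div n 4096))

def tmask (off : ℕ) : List (ℕ × ℕ) → ℕ
  | [] => 0
  | q :: ps => setb (tmask off ps) (Nat.add (Nat.mul 32 (Nat.sub q.1 off)) (Nat.sub q.2 off))

def valid (MG lo hi : ℕ) : List (ℕ × ℕ) → Bool
  | [] => true
  | q :: ps => and (Nat.ble lo q.1) (and (Nat.blt q.1 hi) (and (Nat.ble lo q.2)
      (and (Nat.blt q.2 hi) (and (not (bt MG q.2)) (valid MG lo hi ps)))))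

def sub (js : List (ℕ × ℕ)) : List (ℕ × ℕ) → Bool
  | [] => true
  | q :: ps => and (Nat.beq (rep js q.1) (rep js q.2)) (sub js ps)

def nth {α : Type} : List α → ℕ → Option α
  | [], _ => none
  | t :: _, 0 => some t
  | _ :: ts, n + 1 => nth ts n

def look (lib : List (List Tm)) (p : ℕ) : Option Tm :=
  match nth lib (Nat.div p 1024) with
  | none => none
  | some g => nth g (Nat.mod p 1024)

def chkpar (good : List (ℕ × ℕ) → ℕ → Bool) (lib : List (List Tm)) (t : Tm) : Bool :=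
  match look lib t.par with
  | none => false
  | some q => and (Nat.blt q.d t.d) (and (sub (unp 16 t.J) (unp 16 t.P))
      (and (sub (unp 16 t.J) (unp 16 q.P)) (good (unp 16 t.J) t.Q)))

def chk (off P0 : ℕ) (good : List (ℕ × ℕ) → ℕ → Bool) (lib : List (List Tm)) (t : Tm) : Bool :=
  and (good (unp 16 t.P) t.O) (and (Nat.beq (tmask off (unp 16 t.P)) t.m)
    (cond (Nat.beq t.d 0) (Nat.beq t.P P0) (chkpar good lib t)))

def chkAll (off P0 : ℕ) (good : List (ℕ × ℕ) → ℕ → Bool) (lib : List (List Tm)) :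
    List Tm → Bool
  | [] => true
  | t :: ts => and (chk off P0 good lib t) (chkAll off P0 good lib ts)

lemma chkAll_sound {off P0 : ℕ} {good : List (ℕ × ℕ) → ℕ → Bool} {lib : List (List Tm)} :
    ∀ (ts : List Tm), chkAll off P0 good lib ts = true → ∀ t ∈ ts, chk off P0 good lib t = true
  | [], _, t, h => absurd h (by simp)
  | t' :: ts, h, t, ht => by
    simp only [chkAll, Bool.and_eq_true] at h
    rcases List.mem_cons.1 ht with rfl | ht
    · exact h.1
    · exact chkAll_sound ts h.2 t ht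

lemma nth_mem {α : Type} : ∀ (l : List α) (n : ℕ) (t : α), nth l n = some t → t ∈ l
  | [], n, t, h => by simp [nth] at h
  | t' :: ts, 0, t, h => by simp only [nth, Option.some.injEq] at h; rw [h]; simp
  | t' :: ts, n + 1, t, h => List.mem_cons_of_mem _ (nth_mem ts n t h)

lemma look_mem {lib : List (List Tm)} {p : ℕ} {t : Tm} (h : look lib p = some t) :
    ∃ g ∈ lib, t ∈ g := by
  unfold look at h
  split at h
  · exact absurd h (by simp)
  · rename_i g hg
    exact ⟨g, nth_mem _ _ _ hg, nth_mem _ _ _ h⟩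

lemma valid_sound {MG lo hi : ℕ} : ∀ (ps : List (ℕ × ℕ)), valid MG lo hi ps = true →
    ∀ q ∈ ps, (lo ≤ q.1 ∧ q.1 < hi) ∧ (lo ≤ q.2 ∧ q.2 < hi) ∧ MG.testBit q.2 = false
  | [], _, q, h => absurd h (by simp)
  | q' :: ps, h, q, hq => by
    simp only [valid, Bool.and_eq_true] at h
    rcases List.mem_cons.1 hq with rfl | hq
    · obtain ⟨h1, h2, h3, h4, h5, _⟩ := h
      refine ⟨⟨Nat.le_of_ble_eq_true h1, ?_⟩, ⟨Nat.le_of_ble_eq_true h3, ?_⟩, ?_⟩
      · exact Nat.le_of_ble_eq_true h2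
      · exact Nat.le_of_ble_eq_true h4
      · rw [bt_eq] at h5
        simpa using h5
    · exact valid_sound ps h.2.2.2.2.2 q hq

lemma sub_sound {js : List (ℕ × ℕ)} : ∀ (ps : List (ℕ × ℕ)), sub js ps = true →
    ∀ q ∈ ps, rep js q.1 = rep js q.2
  | [], _, q, h => absurd h (by simp)
  | q' :: ps, h, q, hq => by
    simp only [sub, Bool.and_eq_true] at h
    rcases List.mem_cons.1 hq with rfl | hq
    · exact Nat.eq_of_beq_eq_true h.1
    · exact sub_sound ps h.2 q hq

/-! ### Covering -/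

def anyT : List Tm → ℕ → Bool
  | [], _ => false
  | t :: ts, E => or (Nat.beq (Nat.land E t.m) t.m) (anyT ts E)

def go (K : List ℕ → ℕ → Bool) (bad v E : ℕ) : List ℕ → List ℕ → Bool
  | pre, [] => cond (Nat.blt pre.length 5) (K (Nat.shiftLeft 1 v :: pre) E) true
  | pre, m :: post => and (or (not (Nat.beq (Nat.land m bad) 0))
      (K (List.append pre (setb m v :: post)) (Nat.lor E (Nat.shiftLeft m (Nat.mul 32 v)))))
      (go K bad v E (m :: pre) post)

/-- back-adjacency mask -/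
def badm (B v : ℕ) : ℕ := Nat.land (Nat.shiftRight B (Nat.mul 32 v)) 0xffffffff

def cov (B : ℕ) : List (List Tm) → ℕ → List ℕ → ℕ → Bool
  | [], _, _, _ => false
  | g :: gs, v, ms, E =>
    go (fun ms' E' => or (anyT g E') (cov B gs (Nat.succ v) ms' E')) (badm B v) v E [] ms

/-- `m` only holds positions below `v` of colour `γ` -/
def RR (φ : ℕ → Fin 5) (v : ℕ) (γ : Fin 5) (m : ℕ) : Prop :=
  ∀ x, m.testBit x = true → x < v ∧ φ x = γ

lemma RR.mono {φ : ℕ → Fin 5} {v : ℕ} {γ : Fin 5} {m : ℕ} (h : RR φ v γ m) :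
    RR φ (v + 1) γ m := fun x hx => ⟨Nat.lt_succ_of_lt (h x hx).1, (h x hx).2⟩

lemma go_sound {φ : ℕ → Fin 5} {v bad E : ℕ} {K : List ℕ → ℕ → Bool}
    (hbad : ∀ x, bad.testBit x = true → φ x ≠ φ v) :
    ∀ (post pre : List ℕ) (gpost gpre : List (Fin 5)),
      List.Forall₂ (RR φ v) gpost post → List.Forall₂ (RR φ v) gpre pre →
      (gpre ++ gpost).Nodup → φ v ∉ gpre → go K bad v E pre post = true →
      ∃ gs ms' E', K ms' E' = true ∧ gs.Nodup ∧ List.Forall₂ (RR φ (v + 1)) gs ms' ∧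
        (E' = E ∨ ∃ m, RR φ v (φ v) m ∧ E' = E ||| (m <<< (32 * v)))
  | [], pre, gpost, gpre, h1, h2, hnd, hv, hgo => by
    cases h1
    rw [List.append_nil] at hnd
    have hlen : pre.length < 5 := by
      rw [← h2.length_eq]
      have : (φ v :: gpre).Nodup := List.nodup_cons.2 ⟨hv, hnd⟩
      have h := this.length_le_card
      simp only [List.length_cons, Fintype.card_fin] at h
      omega
    unfold go at hgo
    have hb : Nat.blt pre.length 5 = true := Nat.ble_eq ▸ hlen
    rw [hb, cond_true] at hgo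
    refine ⟨φ v :: gpre, _, _, hgo, List.nodup_cons.2 ⟨hv, hnd⟩, ?_, Or.inl rfl⟩
    refine List.Forall₂.cons ?_ (h2.imp fun _ _ h => h.mono)
    intro x hx
    change (1 <<< v).testBit x = true at hx
    rw [Nat.shiftLeft_eq, one_mul, Nat.testBit_two_pow, decide_eq_true_eq] at hx
    subst hx
    exact ⟨Nat.lt_succ_self _, rfl⟩
  | m :: post, pre, gpost, gpre, h1, h2, hnd, hv, hgo => by
    cases h1 with
    | @cons γ _ gp _ hγ h1 =>
    unfold go at hgo
    rw [Bool.and_eq_true] at hgo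
    obtain ⟨hg1, hg2⟩ := hgo
    by_cases hγv : φ v = γ
    · have hb : Nat.beq (Nat.land m bad) 0 = true := by
        by_contra hne
        have hne' : m &&& bad ≠ 0 := fun h => hne (by
          change Nat.beq (m &&& bad) 0 = true
          rw [h]; rfl)
        obtain ⟨x, hx⟩ := Nat.exists_testBit_of_ne_zero hne'
        rw [Nat.testBit_and, Bool.and_eq_true] at hx
        have := (hγ x hx.1).2
        exact hbad x hx.2 (this.trans hγv.symm)
      rw [hb] at hg1
      simp only [Bool.not_true, Bool.false_or] at hg1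
      refine ⟨gpre ++ γ :: gp, _, _, hg1, hnd, ?_, Or.inr ⟨m, hγv ▸ hγ, rfl⟩⟩
      refine List.rel_append (h2.imp fun _ _ h => h.mono) (List.Forall₂.cons ?_
        (h1.imp fun _ _ h => h.mono))
      intro x hx
      rw [testBit_setb, Bool.or_eq_true, decide_eq_true_eq] at hx
      rcases hx with hx | hx
      · exact hγ.mono x hx
      · rw [← hx]; exact ⟨Nat.lt_succ_self _, hγv⟩
    · refine go_sound hbad post (m :: pre) gp (γ :: gpre) h1 (List.Forall₂.cons hγ h2) ?_ ?_ hg2
      · rw [List.cons_append]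
        exact (List.nodup_middle).1 hnd
      · rw [List.mem_cons, not_or]
        exact ⟨hγv, hv⟩

lemma anyT_sound {E : ℕ} : ∀ (ts : List Tm), anyT ts E = true →
    ∃ t ∈ ts, ∀ x, t.m.testBit x = true → E.testBit x = true
  | [], h => by simp [anyT] at h
  | t :: ts, h => by
    simp only [anyT, Bool.or_eq_true] at h
    rcases h with h | h
    · refine ⟨t, by simp, fun x hx => ?_⟩
      have h' : E &&& t.m = t.m := Nat.eq_of_beq_eq_true h
      rw [← h', Nat.testBit_and, Bool.and_eq_true] at hx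
      exact hx.1
    · obtain ⟨t', ht', h'⟩ := anyT_sound ts h
      exact ⟨t', List.mem_cons_of_mem _ ht', h'⟩

/-- the set bits of `E` mark pairs of equal colour -/
def EE (φ : ℕ → Fin 5) (E : ℕ) : Prop :=
  ∀ x y, x < 32 → E.testBit (32 * y + x) = true → φ x = φ y

theorem cov_sound {φ : ℕ → Fin 5} {B : ℕ} : ∀ (gs : List (List Tm)) (v : ℕ) (ms : List ℕ)
    (E : ℕ), v + gs.length ≤ 32 →
    (∀ w x, w < v + gs.length → (badm B w).testBit x = true → φ x ≠ φ w) →
    (∃ g : List (Fin 5), g.Nodup ∧ List.Forall₂ (RR φ v) g ms) → EE φ E →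
    cov B gs v ms E = true → ∃ g ∈ gs, ∃ t ∈ g, EE φ t.m
  | [], v, ms, E, _, _, _, _, h => by simp [cov] at h
  | g :: gs, v, ms, E, hlen, hbad, ⟨gm, hnd, hgm⟩, hE, h => by
    unfold cov at h
    simp only [List.length_cons] at hlen hbad
    obtain ⟨gs', ms', E', hK, hnd', hF, hE'⟩ := go_sound (φ := φ)
      (fun x hx => hbad v x (by omega) hx) ms [] gm [] hgm List.Forall₂.nil
      (by simpa using hnd) (by simp) h
    have hEE : EE φ E' := by
      rcases hE' with rfl | ⟨m, hm, rfl⟩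
      · exact hE
      · intro x y hx hb
        rw [Nat.testBit_or, Bool.or_eq_true] at hb
        rcases hb with hb | hb
        · exact hE x y hx hb
        · rw [Nat.testBit_shiftLeft, Bool.and_eq_true, decide_eq_true_eq] at hb
          obtain ⟨h1, h2⟩ := hb
          obtain ⟨h3, h4⟩ := hm _ h2
          have hy : y = v := by omega
          have hx' : 32 * y + x - 32 * v = x := by omega
          rw [hx'] at h4
          rw [h4, hy]
    rw [Bool.or_eq_true] at hK
    rcases hK with hK | hK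
    · obtain ⟨t, ht, htE⟩ := anyT_sound g hK
      exact ⟨g, by simp, t, ht, fun x y hx hb => hEE x y hx (htE _ hb)⟩
    · obtain ⟨g', hg', h'⟩ := cov_sound gs (v + 1) ms' E' (by omega)
        (fun w x hw => hbad w x (by omega)) ⟨gs', hnd', hF⟩ hEE hK
      exact ⟨g', List.mem_cons_of_mem _ hg', h'⟩

lemma tmask_sound {φ : ℕ → Fin 5} {off : ℕ} : ∀ (ps : List (ℕ × ℕ)),
    (∀ q ∈ ps, off ≤ q.1 ∧ off ≤ q.2 ∧ q.2 < off + 32) →
    (∀ x y, x < 32 → (tmask off ps).testBit (32 * y + x) = true → φ (x + off) = φ (y + off)) →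
    ∀ q ∈ ps, φ q.1 = φ q.2
  | [], _, _, q, h => absurd h (by simp)
  | q' :: ps, hq, hE, q, h => by
    rcases List.mem_cons.1 h with rfl | h
    · obtain ⟨h1, h2, h3⟩ := hq q (by simp)
      have := hE (q.2 - off) (q.1 - off) (by omega) (by
        simp only [tmask, testBit_setb, Bool.or_eq_true, decide_eq_true_eq]
        right; rfl)
      rw [Nat.sub_add_cancel h1, Nat.sub_add_cancel h2] at this
      exact this.symm
    · refine tmask_sound ps (fun q hq' => hq q (List.mem_cons_of_mem _ hq')) ?_ q h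
      intro x y hx hb
      apply hE x y hx
      simp only [tmask, testBit_setb, Bool.or_eq_true]
      left; exact hb

/-! ### The library theorem -/

lemma Step.symm {L : Type*} {H : L → L → Prop} {S : Set L} {c c' : L → Fin 5}
    (h : Step H S c c') : Step H S c' c := by
  obtain ⟨α, β, A, hAS, hA, hcl, h1, h2⟩ := h
  refine ⟨α, β, A, hAS, ?_, ?_, ?_, fun x hx => (h2 x hx).symm⟩
  · intro x hx
    rw [h1 x hx]
    rcases hA x hx with h | h <;> rw [h]
    · right; exact Equiv.swap_apply_left _ _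
    · left; exact Equiv.swap_apply_right _ _
  · intro x hx y hy hxy hyc
    by_contra hyA
    rw [h2 y hyA] at hyc
    exact hyA (hcl x hx y hy hxy hyc)
  · intro x hx
    rw [h1 x hx, Equiv.swap_apply_self]

lemma rtg_symm {L : Type*} {H : L → L → Prop} {S : Set L} {c c' : L → Fin 5}
    (h : ReflTransGen (Step H S) c c') : ReflTransGen (Step H S) c' c := by
  induction h with
  | refl => exact ReflTransGen.refl
  | tail _ h ih => exact (ReflTransGen.single h.symm).trans ih

section Library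

variable {V : Type} {G : V → V → Prop} {idx : V → ℕ} {vtx : ℕ → V} {n0 : ℕ}

def Sat (vtx : ℕ → V) (ps : List (ℕ × ℕ)) (φ : V → Fin 5) : Prop :=
  ∀ q ∈ ps, φ (vtx q.1) = φ (vtx q.2)

lemma sat_rep (φ : V → Fin 5) : ∀ (ps : List (ℕ × ℕ)), Sat vtx ps φ →
    ∀ x, φ (vtx (rep ps x)) = φ (vtx x)
  | [], _, x => rfl
  | q :: ps, h, x => by
    by_cases hx : x = q.1
    · have h1 : rep (q :: ps) x = q.2 := by simp [rep, hx]
      rw [h1, hx]
      exact (h q (by simp)).symm
    · have h1 : rep (q :: ps) x = rep ps x := by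
        have : Nat.beq x q.1 = false := by
          rw [Bool.eq_false_iff]; intro hh; exact hx (Nat.eq_of_beq_eq_true hh)
        simp [rep, this]
      rw [h1]
      exact sat_rep φ ps (fun q hq => h q (List.mem_cons_of_mem _ hq)) x

/-- what a check `good` has to guarantee -/
def GoodSound (G : V → V → Prop) (idx : V → ℕ) (n0 : ℕ) (off : ℕ)
    (good : List (ℕ × ℕ) → ℕ → Bool) : Prop :=
  ∀ ps O, good ps O = true → (∀ q ∈ ps, (off ≤ q.1 ∧ q.1 < n0) ∧ (off ≤ q.2 ∧ q.2 < n0 ∧
    q.2 < off + 32)) ∧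
    ∃ S : Set ℕ, KC (Quo G (fun v => rep ps (idx v))) S ∧ ∀ v, rep ps (idx v) ∈ S

lemma good_joined (hvi : ∀ v, vtx (idx v) = v) {off : ℕ} {good : List (ℕ × ℕ) → ℕ → Bool}
    (hg : GoodSound G idx n0 off good) {ps : List (ℕ × ℕ)} {O : ℕ} (h : good ps O = true)
    {φ φ' : V → Fin 5} (hφ : Proper G Set.univ φ) (hφ' : Proper G Set.univ φ')
    (hs : Sat vtx ps φ) (hs' : Sat vtx ps φ') :
    ReflTransGen (Step G Set.univ) φ φ' := by
  obtain ⟨_, S, hKC, hS⟩ := hg ps O h
  have e : ∀ φ : V → Fin 5, Sat vtx ps φ → φ = (fun n => φ (vtx n)) ∘ (fun v => rep ps (idx v)) := by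
    intro φ hs
    funext v
    simp only [Function.comp]
    rw [sat_rep φ ps hs, hvi]
  rw [e φ hs, e φ' hs']
  refine KC.joined hS hKC ?_ ?_
  · rw [← e φ hs]; exact hφ
  · rw [← e φ' hs']; exact hφ'

lemma good_exists (hiv : ∀ n < n0, idx (vtx n) = n) {off : ℕ}
    {good : List (ℕ × ℕ) → ℕ → Bool} (hg : GoodSound G idx n0 off good)
    {js ps qs : List (ℕ × ℕ)} {O O1 O2 : ℕ} (h : good js O = true) (hp : good ps O1 = true)
    (hq : good qs O2 = true) (h1 : sub js ps = true) (h2 : sub js qs = true) :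
    ∃ φ : V → Fin 5, Proper G Set.univ φ ∧ Sat vtx ps φ ∧ Sat vtx qs φ := by
  obtain ⟨_, S, hKC, hS⟩ := hg js O h
  obtain ⟨c, hc⟩ := KC.exists_col hS hKC
  have key : ∀ (ps : List (ℕ × ℕ)) (O : ℕ), good ps O = true → sub js ps = true →
      Sat vtx ps (c ∘ (fun v => rep js (idx v))) := by
    intro ps O1 hp h1 q hq
    obtain ⟨h3, _⟩ := hg ps O1 hp
    obtain ⟨⟨_, h4⟩, _, h5, _⟩ := h3 q hq
    simp only [Function.comp]
    rw [hiv _ h4, hiv _ h5, sub_sound ps h1 q hq]
  exact ⟨_, hc, key ps O1 hp h1, key qs O2 hq h2⟩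

theorem lib_joined (hvi : ∀ v, vtx (idx v) = v) (hiv : ∀ n < n0, idx (vtx n) = n) {off P0 : ℕ}
    {good : List (ℕ × ℕ) → ℕ → Bool} (hg : GoodSound G idx n0 off good)
    {lib : List (List Tm)} (hlib : ∀ g ∈ lib, ∀ t ∈ g, chk off P0 good lib t = true) :
    ∀ (n : ℕ) (g : List Tm), g ∈ lib → ∀ t ∈ g, t.d = n → ∀ φ : V → Fin 5,
      Proper G Set.univ φ → Sat vtx (unp 16 t.P) φ →
      (∃ O, good (unp 16 P0) O = true) ∧ ∃ φ0 : V → Fin 5, Proper G Set.univ φ0 ∧
        Sat vtx (unp 16 P0) φ0 ∧ ReflTransGen (Step G Set.univ) φ φ0 := by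
  intro n
  induction n using Nat.strong_induction_on with
  | _ n ih =>
  intro g hgl t htg htd φ hφ hs
  have hc := hlib g hgl t htg
  simp only [chk, Bool.and_eq_true] at hc
  obtain ⟨h1, _, h3⟩ := hc
  by_cases h0 : Nat.beq t.d 0 = true
  · rw [h0, cond_true] at h3
    have h4 : t.P = P0 := Nat.eq_of_beq_eq_true h3
    rw [h4] at h1 hs
    exact ⟨⟨_, h1⟩, φ, hφ, hs, ReflTransGen.refl⟩
  · rw [Bool.not_eq_true] at h0
    rw [h0, cond_false] at h3
    unfold chkpar at h3
    split at h3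
    · exact absurd h3 (by simp)
    · rename_i q hq
      simp only [Bool.and_eq_true] at h3
      obtain ⟨h4, h5, h6, h7⟩ := h3
      obtain ⟨g', hg'l, hqg'⟩ := look_mem hq
      have hd : q.d < t.d := Nat.le_of_ble_eq_true h4
      have hcq := hlib g' hg'l q hqg'
      simp only [chk, Bool.and_eq_true] at hcq
      obtain ⟨φ1, hφ1, hs1, hs2⟩ := good_exists hiv hg h7 h1 hcq.1 h5 h6
      obtain ⟨hO, φ0, hφ0, hs0, hr⟩ := ih q.d (htd ▸ hd) g' hg'l q hqg' rfl φ1 hφ1 hs2
      exact ⟨hO, φ0, hφ0, hs0, (good_joined hvi hg h1 hφ hφ1 hs hs1).trans hr⟩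

/-- The main statement on libraries. -/
theorem lib_main (hvi : ∀ v, vtx (idx v) = v) (hiv : ∀ n < n0, idx (vtx n) = n)
    {off P0 B : ℕ} {good : List (ℕ × ℕ) → ℕ → Bool} (hg : GoodSound G idx n0 off good)
    {lib : List (List Tm)} (hlib : ∀ g ∈ lib, ∀ t ∈ g, chk off P0 good lib t = true)
    (hlen : lib.length ≤ 32)
    (hB : ∀ w x, w < lib.length → (badm B w).testBit x = true → G (vtx (x + off)) (vtx (w + off)))
    (hcov : cov B lib 0 [] 0 = true)
    {φ φ' : V → Fin 5} (hφ : Proper G Set.univ φ) (hφ' : Proper G Set.univ φ') :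
    ReflTransGen (Step G Set.univ) φ φ' := by
  have key : ∀ φ : V → Fin 5, Proper G Set.univ φ → ∃ g ∈ lib, ∃ t ∈ g,
      Sat vtx (unp 16 t.P) φ := by
    intro φ hφ
    obtain ⟨g, hgl, t, htg, hE⟩ := cov_sound (φ := fun n => φ (vtx (n + off))) lib 0 [] 0
      (by omega) (fun w x hw hb => hφ _ (Set.mem_univ _) _ (Set.mem_univ _)
        (hB w x (by omega) hb)) ⟨[], List.nodup_nil, List.Forall₂.nil⟩
      (fun x y _ h => by simp at h) hcov
    refine ⟨g, hgl, t, htg, ?_⟩
    have hc := hlib g hgl t htg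
    simp only [chk, Bool.and_eq_true] at hc
    obtain ⟨h1, h2, _⟩ := hc
    have h2' : tmask off (unp 16 t.P) = t.m := Nat.eq_of_beq_eq_true h2
    obtain ⟨h3, _⟩ := hg _ _ h1
    refine tmask_sound (φ := fun n => φ (vtx n)) (off := off) _ ?_ ?_
    · intro q hq
      have := h3 q hq
      exact ⟨this.1.1, this.2.1, this.2.2.2⟩
    · intro x y hx hb
      rw [h2'] at hb
      exact hE x y hx hb
  obtain ⟨g, hgl, t, htg, hs⟩ := key φ hφ
  obtain ⟨g', hgl', t', htg', hs'⟩ := key φ' hφ'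
  obtain ⟨⟨O, hO⟩, φ0, hφ0, hs0, hr⟩ := lib_joined hvi hiv hg hlib _ g hgl t htg rfl φ hφ hs
  obtain ⟨_, φ0', hφ0', hs0', hr'⟩ := lib_joined hvi hiv hg hlib _ g' hgl' t' htg' rfl φ' hφ' hs'
  exact (hr.trans (good_joined hvi hg hO hφ0 hφ0' hs0 hs0')).trans (rtg_symm hr')

end Library

end Pool.Agent.Helper43.Kempe
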