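import Pool.Agent.Helper43.Kempe.Final
import Pool.Agent.Helper43.Kempe.Data.T33
import Pool.Agent.Helper43.Kempe.Data.T34
import Pool.Agent.Helper43.Kempe.Data.S3
import Pool.Agent.Helper43.Kempe.Data.T44
import Pool.Agent.Helper43.Kempe.Data.T45
import Pool.Agent.Helper43.Kempe.Data.T46
import Pool.Agent.Helper43.Kempe.Data.S4
import Pool.Agent.Helper43.Kempe.Data.T55
import Pool.Agent.Helper43.Kempe.Data.T56
import Pool.Agent.Helper43.Kempe.Data.S5

/-!
# All colourings are joined when the shorter side is at most five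
-/

namespace Pool.Agent.Helper43.Kempe

theorem joined_of_le {a b : ℕ} (ha : 3 ≤ a) (hab : a ≤ b) (h5 : a ≤ 5) : AllJoined a b := by
  intro φ φ' hφ hφ'
  interval_cases a
  · by_cases h : 5 ≤ b
    · exact S3.main b h φ φ' hφ hφ'
    · have hb : b = 3 ∨ b = 4 := by omega
      rcases hb with rfl | rfl
      · exact T33.main φ φ' hφ hφ'
      · exact T34.main φ φ' hφ hφ'
  · by_cases h : 7 ≤ b
    · exact S4.main b h φ φ' hφ hφ'
    · have hb : b = 4 ∨ b = 5 ∨ b = 6 := by omega
      rcases hb with rfl | rfl | rfl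
      · exact T44.main φ φ' hφ hφ'
      · exact T45.main φ φ' hφ hφ'
      · exact T46.main φ φ' hφ hφ'
  · by_cases h : 7 ≤ b
    · exact S5.main b h φ φ' hφ hφ'
    · have hb : b = 5 ∨ b = 6 := by omega
      rcases hb with rfl | rfl
      · exact T55.main φ φ' hφ hφ'
      · exact T56.main φ φ' hφ hφ'

theorem joined_small {a b : ℕ} (ha : 3 ≤ a) (hb : 3 ≤ b) (h : a ≤ 5 ∨ b ≤ 5) :
    AllJoined a b := by
  rcases le_total a b with hab | hab
  · exact joined_of_le ha hab (by omega)
  · exact (joined_of_le hb hab (by omega)).swap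

end Pool.Agent.Helper43.Kempe
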